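import Mathlib

set_option autoImplicit false

namespace Pool.Agent.P.MP_4cb405_co

open Finset

/-- Dependent random choice, counting form. -/
theorem drc_count (X Y : Finset ℕ) (E : ℕ → ℕ → Prop) [∀ x y, Decidable (E x y)]
    (hX : X.Nonempty) (hY : Y.Nonempty) (p δ : ℝ) (hp : 0 < p) (hδ : 0 ≤ δ) (s r : ℕ)
    (hs : 0 < s) (hr : 0 < r)
    (hdens : p * X.card * Y.card ≤ ∑ x ∈ X, ((Y.filter (fun y => E x y)).card : ℝ))
    (hsmall : (X.card : ℝ) ^ s * δ ^ r ≤ p ^ r / 2) :
    ∃ X' ⊆ X, p ^ r * X.card / 2 ≤ X'.card ∧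
      ∀ a : Fin s → ℕ, (∀ k, a k ∈ X') →
        δ * Y.card ≤ ((Y.filter (fun y => ∀ k, E (a k) y)).card : ℝ) := by
  classical
  have hXc : (0 : ℝ) < X.card := by exact_mod_cast hX.card_pos
  have hYc : (0 : ℝ) < Y.card := by exact_mod_cast hY.card_pos
  have hX1 : (1 : ℝ) ≤ X.card := by exact_mod_cast hX.card_pos
  set T : Finset (Fin r → ℕ) := Fintype.piFinset (fun _ => Y) with hT
  set A : Finset (Fin s → ℕ) := Fintype.piFinset (fun _ => X) with hA
  let nb : (Fin r → ℕ) → Finset ℕ := fun y => X.filter (fun x => ∀ i, E x (y i))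
  let cod : (Fin s → ℕ) → Finset ℕ := fun a => Y.filter (fun y => ∀ k, E (a k) y)
  let bad : Finset (Fin s → ℕ) := A.filter (fun a => ((cod a).card : ℝ) < δ * Y.card)
  let badIn : (Fin r → ℕ) → Finset (Fin s → ℕ) := fun y =>
    bad.filter (fun a => ∀ i, y i ∈ cod a)
  have hTc : (T.card : ℝ) = (Y.card : ℝ) ^ r := by
    simp [hT, Fintype.card_piFinset]
  have hAc : (A.card : ℝ) = (X.card : ℝ) ^ s := by
    simp [hA, Fintype.card_piFinset]
  -- first moment of the neighbourhood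
  have h1 : ∑ y ∈ T, ((nb y).card : ℝ) =
      ∑ x ∈ X, ((Y.filter (fun y => E x y)).card : ℝ) ^ r := by
    have : ∀ y ∈ T, ((nb y).card : ℝ) = ∑ x ∈ X, if (∀ i, E x (y i)) then (1 : ℝ) else 0 := by
      intro y _
      simp [nb]
    rw [Finset.sum_congr rfl this, Finset.sum_comm]
    refine Finset.sum_congr rfl (fun x _ => ?_)
    have : (T.filter (fun y => ∀ i, E x (y i))) =
        Fintype.piFinset (fun _ : Fin r => Y.filter (fun y => E x y)) := by
      ext y
      simp only [hT, mem_filter, Fintype.mem_piFinset]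
      constructor
      · rintro ⟨h1, h2⟩ i
        exact ⟨h1 i, h2 i⟩
      · intro h
        exact ⟨fun i => (h i).1, fun i => (h i).2⟩
    rw [Finset.sum_ite, Finset.sum_const_zero, add_zero, Finset.sum_const, this]
    simp [Fintype.card_piFinset]
  have h2 : p ^ r * X.card * (Y.card : ℝ) ^ r ≤
      ∑ x ∈ X, ((Y.filter (fun y => E x y)).card : ℝ) ^ r := by
    obtain ⟨n, rfl⟩ : ∃ n, r = n + 1 := ⟨r - 1, by omega⟩
    have hJ := pow_sum_div_card_le_sum_pow (s := X)
      (f := fun x => ((Y.filter (fun y => E x y)).card : ℝ)) (fun i _ => by positivity) n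
    refine le_trans ?_ hJ
    rw [le_div_iff₀ (by positivity)]
    calc p ^ (n + 1) * X.card * (Y.card : ℝ) ^ (n + 1) * (X.card : ℝ) ^ n
        = (p * X.card * Y.card) ^ (n + 1) := by ring
      _ ≤ _ := pow_le_pow_left₀ (by positivity) hdens _
  -- first moment of bad tuples
  have h3 : ∑ y ∈ T, ((badIn y).card : ℝ) ≤ (X.card : ℝ) ^ s * (δ * Y.card) ^ r := by
    have : ∀ y ∈ T, ((badIn y).card : ℝ) =
        ∑ a ∈ bad, if (∀ i, y i ∈ cod a) then (1 : ℝ) else 0 := by
      intro y _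
      simp [badIn]
    rw [Finset.sum_congr rfl this, Finset.sum_comm]
    have h4 : ∀ a ∈ bad, (∑ y ∈ T, if (∀ i, y i ∈ cod a) then (1 : ℝ) else 0) ≤
        (δ * Y.card) ^ r := by
      intro a ha
      have hlt : ((cod a).card : ℝ) < δ * Y.card := (mem_filter.1 ha).2
      have : (T.filter (fun y => ∀ i, y i ∈ cod a)) =
          Fintype.piFinset (fun _ : Fin r => cod a) := by
        ext y
        simp only [hT, mem_filter, Fintype.mem_piFinset]
        constructor
        · rintro ⟨_, h2⟩ i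
          exact h2 i
        · intro h
          exact ⟨fun i => (mem_filter.1 (h i)).1, h⟩
      rw [Finset.sum_ite, Finset.sum_const_zero, add_zero, Finset.sum_const, this]
      simp only [Fintype.card_piFinset, prod_const, card_univ, Fintype.card_fin, nsmul_eq_mul,
        Nat.cast_pow, mul_one]
      exact pow_le_pow_left₀ (by positivity) hlt.le _
    calc _ ≤ ∑ a ∈ bad, (δ * Y.card) ^ r := Finset.sum_le_sum h4
      _ = bad.card * (δ * Y.card) ^ r := by simp
      _ ≤ A.card * (δ * Y.card) ^ r := by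
          gcongr
          exact Finset.filter_subset _ _
      _ = _ := by rw [hAc]
  have hTne : T.Nonempty := by
    rw [← Finset.card_pos]
    have : (0 : ℝ) < T.card := by rw [hTc]; positivity
    exact_mod_cast this
  have h5 : ∑ y ∈ T, (p ^ r * X.card / 2) ≤
      ∑ y ∈ T, (((nb y).card : ℝ) - (badIn y).card) := by
    rw [Finset.sum_sub_distrib, h1, Finset.sum_const, nsmul_eq_mul, hTc]
    have h6 : (X.card : ℝ) ^ s * (δ * Y.card) ^ r ≤ p ^ r * X.card / 2 * (Y.card : ℝ) ^ r := by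
      rw [mul_pow, ← mul_assoc]
      gcongr
      calc _ ≤ p ^ r / 2 := hsmall
        _ = p ^ r * 1 / 2 := by ring
        _ ≤ _ := by gcongr
    nlinarith
  obtain ⟨y, hyT, hy⟩ := Finset.exists_le_of_sum_le hTne h5
  refine ⟨nb y \ (badIn y).image (fun a => a ⟨0, hs⟩), ?_, ?_, ?_⟩
  · exact Finset.Subset.trans Finset.sdiff_subset (Finset.filter_subset _ _)
  · have h7 : (nb y).card ≤ (nb y \ (badIn y).image (fun a => a ⟨0, hs⟩)).card +
        (badIn y).card := by
      have := Finset.le_card_sdiff ((badIn y).image (fun a => a ⟨0, hs⟩)) (nb y)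
      have h8 : ((badIn y).image (fun a => a ⟨0, hs⟩)).card ≤ (badIn y).card :=
        Finset.card_image_le
      omega
    have h7' : ((nb y).card : ℝ) ≤ ((nb y \ (badIn y).image (fun a => a ⟨0, hs⟩)).card : ℝ) +
        (badIn y).card := by exact_mod_cast h7
    linarith
  · intro a ha
    by_contra hlt
    push Not at hlt
    have haA : a ∈ A := by
      simp only [hA, Fintype.mem_piFinset]
      intro k
      exact (mem_filter.1 (mem_sdiff.1 (ha k)).1).1
    have hab : a ∈ badIn y := by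
      refine mem_filter.2 ⟨mem_filter.2 ⟨haA, hlt⟩, fun i => mem_filter.2 ⟨?_, fun k => ?_⟩⟩
      · exact (Fintype.mem_piFinset.1 hyT) i
      · exact (mem_filter.1 (mem_sdiff.1 (ha k)).1).2 i
    exact (mem_sdiff.1 (ha ⟨0, hs⟩)).2 (mem_image.2 ⟨a, hab, rfl⟩)

/-- Binary logarithm of the size of a finite set. -/
noncomputable def lg (U : Finset ℕ) : ℝ := Real.logb 2 U.card

theorem lg_le_of (U V : Finset ℕ) (x : ℝ) (hU : U.Nonempty)
    (h : (2 : ℝ) ^ (-x) * U.card ≤ V.card) : V.Nonempty ∧ lg U - x ≤ lg V := by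
  have hUc : (0 : ℝ) < U.card := by exact_mod_cast hU.card_pos
  have h2 : (0 : ℝ) < (2 : ℝ) ^ (-x) := by positivity
  have hVc : (0 : ℝ) < V.card := lt_of_lt_of_le (by positivity) h
  refine ⟨Finset.card_pos.1 (by exact_mod_cast hVc), ?_⟩
  have := Real.logb_le_logb_of_le (b := 2) (by norm_num) (by positivity) h
  rw [Real.logb_mul h2.ne' hUc.ne', Real.logb_rpow (by norm_num) (by norm_num)] at this
  unfold lg
  linarith

/-- Dependent random choice, logarithmic form. -/
theorem drc_log (X Y : Finset ℕ) (E : ℕ → ℕ → Prop) [∀ x y, Decidable (E x y)]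
    (hX : X.Nonempty) (hY : Y.Nonempty) (L : ℝ) (D s r : ℕ) (hs : 0 < s) (hr : 0 < r)
    (hD : X.card ≤ 2 ^ D)
    (hdens : (2 : ℝ) ^ (-L) * X.card * Y.card ≤
      ∑ x ∈ X, ((Y.filter (fun y => E x y)).card : ℝ)) :
    ∃ X' ⊆ X, X'.Nonempty ∧ lg X - (r * L + 1) ≤ lg X' ∧
      ∀ (a : ℕ → ℕ) (i : ℕ), (∀ k, i ≤ k → k < i + s → a k ∈ X') →
        ∃ Y' ⊆ Y, Y'.Nonempty ∧ lg Y - (L + (D * s + 1) / r) ≤ lg Y' ∧
          ∀ k, i ≤ k → k < i + s → ∀ y ∈ Y', E (a k) y := by
  have hrR : (0 : ℝ) < r := by exact_mod_cast hr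
  have hsmall : (X.card : ℝ) ^ s * ((2 : ℝ) ^ (-(L + (D * s + 1) / r))) ^ r ≤
      ((2 : ℝ) ^ (-L)) ^ r / 2 := by
    have hXD : (X.card : ℝ) ≤ (2 : ℝ) ^ (D : ℝ) := by
      rw [Real.rpow_natCast]; exact_mod_cast hD
    have e1 : (X.card : ℝ) ^ s ≤ (2 : ℝ) ^ ((D : ℝ) * s) := by
      rw [Real.rpow_mul (by norm_num), Real.rpow_natCast _ s]
      exact pow_le_pow_left₀ (by positivity) hXD _
    have e2 : ((2 : ℝ) ^ (-(L + (D * s + 1) / r))) ^ r =
        (2 : ℝ) ^ (-(L * r) - (D * s + 1)) := by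
      rw [← Real.rpow_natCast, ← Real.rpow_mul (by norm_num)]
      congr 1
      field_simp
      ring
    have e3 : ((2 : ℝ) ^ (-L)) ^ r / 2 = (2 : ℝ) ^ (-(L * r) - 1) := by
      rw [← Real.rpow_natCast, ← Real.rpow_mul (by norm_num), Real.rpow_sub (by norm_num)]
      simp
    rw [e2, e3]
    calc _ ≤ (2 : ℝ) ^ ((D : ℝ) * s) * (2 : ℝ) ^ (-(L * r) - (D * s + 1)) := by gcongr
      _ = _ := by
        rw [← Real.rpow_add (by norm_num)]
        congr 1
        ring
  obtain ⟨X', hX'X, hX'c, hX'⟩ := drc_count X Y E hX hY ((2 : ℝ) ^ (-L))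
    ((2 : ℝ) ^ (-(L + (D * s + 1) / r))) (by positivity) (by positivity) s r hs hr hdens hsmall
  have e4 : (2 : ℝ) ^ (-((r : ℝ) * L + 1)) * X.card ≤ X'.card := by
    refine le_trans (le_of_eq ?_) hX'c
    rw [← Real.rpow_natCast, ← Real.rpow_mul (by norm_num), neg_add, Real.rpow_add (by norm_num),
      Real.rpow_neg_one]
    rw [show -(↑r * L) = -L * r by ring]
    ring
  obtain ⟨hne, hlg⟩ := lg_le_of X X' _ hX e4
  refine ⟨X', hX'X, hne, hlg, fun a i ha => ?_⟩
  have := hX' (fun k => a (i + k)) (fun k => ha _ (by omega) (by omega))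
  obtain ⟨hne', hlg'⟩ := lg_le_of Y _ _ hY this
  refine ⟨_, Finset.filter_subset _ _, hne', hlg', fun k hk1 hk2 y hy => ?_⟩
  have := (mem_filter.1 hy).2 ⟨k - i, by omega⟩
  simpa [Nat.add_sub_cancel' hk1] using this

end Pool.Agent.P.MP_4cb405_co
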