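import Mathlib
import Pool.Agent.P.MP_4cb405_co.Drc

set_option autoImplicit false

namespace Pool.Agent.P.MP_4cb405_co

open Finset

/-- The Cantor set of height `h` with offset `o`. -/
def Cs : ℕ → ℕ → Finset ℕ
  | 0, o => {o}
  | h + 1, o => Cs h o ∪ Cs h (o + 2 * 3 ^ h)

theorem Cs_range : ∀ (h o x : ℕ), x ∈ Cs h o → o ≤ x ∧ x < o + 3 ^ h
  | 0, o, x, hx => by
    simp only [Cs, mem_singleton] at hx
    simp [hx]
  | h + 1, o, x, hx => by
    simp only [Cs, mem_union] at hx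
    have h3 : 0 < 3 ^ h := by positivity
    rcases hx with hx | hx
    · have := Cs_range h _ _ hx
      rw [pow_succ]; omega
    · have := Cs_range h _ _ hx
      rw [pow_succ]; omega

theorem Cs_disj (h o : ℕ) : Disjoint (Cs h o) (Cs h (o + 2 * 3 ^ h)) := by
  rw [Finset.disjoint_left]
  intro x h1 h2
  have := Cs_range _ _ _ h1
  have := Cs_range _ _ _ h2
  have h3 : 0 < 3 ^ h := by positivity
  omega

theorem Cs_card : ∀ (h o : ℕ), (Cs h o).card = 2 ^ h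
  | 0, o => by simp [Cs]
  | h + 1, o => by
    simp only [Cs]
    rw [Finset.card_union_of_disjoint (Cs_disj h o), Cs_card, Cs_card, pow_succ]
    ring

theorem lg_mono {U V : Finset ℕ} (hU : U.Nonempty) (h : U ⊆ V) : lg U ≤ lg V := by
  unfold lg
  have hUc : (0 : ℝ) < U.card := by exact_mod_cast hU.card_pos
  exact Real.logb_le_logb_of_le (by norm_num) hUc (by exact_mod_cast Finset.card_le_card h)

theorem lg_Cs (h o : ℕ) : lg (Cs h o) = h := by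
  unfold lg
  rw [Cs_card]
  push_cast
  rw [Real.logb_pow]
  simp

theorem lg_le_height {U : Finset ℕ} {h o : ℕ} (hU : U.Nonempty) (hs : U ⊆ Cs h o) :
    lg U ≤ h := by
  rw [← lg_Cs h o]; exact lg_mono hU hs

theorem Cs_nonempty (h o : ℕ) : (Cs h o).Nonempty := by
  rw [← Finset.card_pos, Cs_card]; positivity

theorem card_split {U : Finset ℕ} {h o : ℕ} (hs : U ⊆ Cs (h + 1) o) :
    (U ∩ Cs h o).card + (U ∩ Cs h (o + 2 * 3 ^ h)).card = U.card := by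
  rw [← Finset.card_union_of_disjoint, ← Finset.inter_union_distrib_left]
  · congr 1
    exact Finset.inter_eq_left.2 hs
  · exact (Cs_disj h o).mono Finset.inter_subset_right Finset.inter_subset_right

theorem two_rpow_neg_half : (2 : ℝ) ^ (-(1 / 2 : ℝ)) ≤ 3 / 4 := by
  have h : ((2 : ℝ) ^ (-(1 / 2 : ℝ))) ^ 2 = 1 / 2 := by
    rw [← Real.rpow_natCast, ← Real.rpow_mul (by norm_num)]
    norm_num
  have h0 : 0 < (2 : ℝ) ^ (-(1 / 2 : ℝ)) := by positivity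
  nlinarith

/-- One level down: unbalanced or balanced. -/
theorem split_level {U : Finset ℕ} {h o : ℕ} (hU : U.Nonempty) (hs : U ⊆ Cs (h + 1) o) :
    (∃ V o', V ⊆ U ∧ V ⊆ Cs h o' ∧ V.Nonempty ∧ lg U - 1 / 2 ≤ lg V) ∨
    ((U ∩ Cs h o).Nonempty ∧ lg U - 2 ≤ lg (U ∩ Cs h o) ∧
      (U ∩ Cs h (o + 2 * 3 ^ h)).Nonempty ∧ lg U - 2 ≤ lg (U ∩ Cs h (o + 2 * 3 ^ h))) := by
  have hc := card_split hs
  have hcR : ((U ∩ Cs h o).card : ℝ) + (U ∩ Cs h (o + 2 * 3 ^ h)).card = U.card := by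
    exact_mod_cast hc
  have hUc : (0 : ℝ) < U.card := by exact_mod_cast hU.card_pos
  have h4 : (2 : ℝ) ^ (-(2 : ℝ)) = 1 / 4 := by
    rw [Real.rpow_neg (by norm_num)]; norm_num
  by_cases h1 : (3 / 4 : ℝ) * U.card ≤ (U ∩ Cs h o).card
  · left
    have := lg_le_of U (U ∩ Cs h o) (1 / 2) hU
      (le_trans (mul_le_mul_of_nonneg_right two_rpow_neg_half hUc.le) h1)
    exact ⟨_, o, Finset.inter_subset_left, Finset.inter_subset_right, this.1, this.2⟩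
  by_cases h2 : (3 / 4 : ℝ) * U.card ≤ (U ∩ Cs h (o + 2 * 3 ^ h)).card
  · left
    have := lg_le_of U (U ∩ Cs h (o + 2 * 3 ^ h)) (1 / 2) hU
      (le_trans (mul_le_mul_of_nonneg_right two_rpow_neg_half hUc.le) h2)
    exact ⟨_, _, Finset.inter_subset_left, Finset.inter_subset_right, this.1, this.2⟩
  right
  have a1 := lg_le_of U (U ∩ Cs h o) 2 hU (by rw [h4]; linarith)
  have a2 := lg_le_of U (U ∩ Cs h (o + 2 * 3 ^ h)) 2 hU (by rw [h4]; linarith)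
  exact ⟨a1.1, a1.2, a2.1, a2.2⟩

theorem descend_one {U : Finset ℕ} {h o : ℕ} (hU : U.Nonempty) (hs : U ⊆ Cs (h + 1) o) :
    ∃ V o', V ⊆ U ∧ V ⊆ Cs h o' ∧ V.Nonempty ∧ lg U - 1 ≤ lg V := by
  have hc := card_split hs
  have hcR : ((U ∩ Cs h o).card : ℝ) + (U ∩ Cs h (o + 2 * 3 ^ h)).card = U.card := by
    exact_mod_cast hc
  have h4 : (2 : ℝ) ^ (-(1 : ℝ)) = 1 / 2 := by
    rw [Real.rpow_neg (by norm_num)]; norm_num
  by_cases h1 : (1 / 2 : ℝ) * U.card ≤ (U ∩ Cs h o).card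
  · have := lg_le_of U (U ∩ Cs h o) 1 hU (by rw [h4]; exact h1)
    exact ⟨_, o, Finset.inter_subset_left, Finset.inter_subset_right, this.1, this.2⟩
  · have := lg_le_of U (U ∩ Cs h (o + 2 * 3 ^ h)) 1 hU (by rw [h4]; linarith)
    exact ⟨_, _, Finset.inter_subset_left, Finset.inter_subset_right, this.1, this.2⟩

/-- Densest descendant. -/
theorem descend : ∀ (d : ℕ) {U : Finset ℕ} {h o : ℕ}, U.Nonempty → U ⊆ Cs (h + d) o →
    ∃ V o', V ⊆ U ∧ V ⊆ Cs h o' ∧ V.Nonempty ∧ lg U - d ≤ lg V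
  | 0, U, h, o, hU, hs => ⟨U, o, Subset.rfl, hs, hU, by simp⟩
  | d + 1, U, h, o, hU, hs => by
    obtain ⟨V, o', h1, h2, h3, h4⟩ := descend_one (h := h + d) hU hs
    obtain ⟨V', o'', k1, k2, k3, k4⟩ := descend d h3 h2
    exact ⟨V', o'', k1.trans h1, k2, k3, by push_cast; linarith⟩

/-- Majority colour. -/
theorem majority (q : ℕ) (hq : 0 < q) (f : ℕ → ℕ → ℕ) (hf : ∀ x y, f x y < q)
    (X Y : Finset ℕ) :
    ∃ c < q, (2 : ℝ) ^ (-(q : ℝ)) * X.card * Y.card ≤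
      ∑ x ∈ X, ((Y.filter (fun y => f x y = c)).card : ℝ) := by
  have h1 : ∑ c ∈ range q, ∑ x ∈ X, ((Y.filter (fun y => f x y = c)).card : ℝ) =
      X.card * Y.card := by
    rw [Finset.sum_comm]
    have : ∀ x ∈ X, ∑ c ∈ range q, ((Y.filter (fun y => f x y = c)).card : ℝ) = Y.card := by
      intro x _
      have := Finset.card_eq_sum_card_fiberwise (f := fun y => f x y) (s := Y) (t := range q)
        (fun y _ => by simpa using hf x y)
      exact_mod_cast this.symm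
    rw [Finset.sum_congr rfl this]
    simp
  have hqR : (0 : ℝ) < q := by exact_mod_cast hq
  have h2 : ∑ _c ∈ range q, ((X.card : ℝ) * Y.card / q) ≤
      ∑ c ∈ range q, ∑ x ∈ X, ((Y.filter (fun y => f x y = c)).card : ℝ) := by
    rw [h1]
    simp only [sum_const, card_range, nsmul_eq_mul]
    apply le_of_eq
    field_simp
  obtain ⟨c, hc, hc2⟩ := Finset.exists_le_of_sum_le ⟨0, by simpa using hq⟩ h2
  refine ⟨c, by simpa using hc, le_trans ?_ hc2⟩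
  have h3 : (2 : ℝ) ^ (-(q : ℝ)) ≤ 1 / q := by
    rw [Real.rpow_neg (by norm_num), Real.rpow_natCast, one_div]
    apply inv_anti₀ hqR
    exact_mod_cast (Nat.lt_two_pow_self).le
  calc _ = (2 : ℝ) ^ (-(q : ℝ)) * (X.card * Y.card) := by ring
    _ ≤ 1 / q * (X.card * Y.card) := by gcongr
    _ = _ := by ring

theorem sum_filter_swap (X Y : Finset ℕ) (E : ℕ → ℕ → Prop) [∀ x y, Decidable (E x y)] :
    ∑ x ∈ X, ((Y.filter (fun y => E x y)).card : ℝ) =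
      ∑ y ∈ Y, ((X.filter (fun x => E x y)).card : ℝ) := by
  simp only [Finset.card_filter, Nat.cast_sum]
  exact Finset.sum_comm

/-- Gap `l` is nested below gap `k`: every other gap between them has larger rank than `k`. -/
def Nest (ρ : ℕ → ℕ) (k l : ℕ) : Prop :=
  k ≠ l ∧ ∀ m, ((k ≤ m ∧ m ≤ l) ∨ (l ≤ m ∧ m ≤ k)) → m ≠ k → ρ k < ρ m

/-- A monochromatic copy of the interval type `[i, j]`, gaps obeying `Wp` and `R`. -/
structure Copy (f : ℕ → ℕ → ℕ) (c : ℕ) (R : ℕ → ℕ → Prop) (Wp : ℕ → ℕ → Prop)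
    (U : Finset ℕ) (i j : ℕ) (a : ℕ → ℕ) : Prop where
  mem : ∀ k, i ≤ k → k ≤ j → a k ∈ U
  col : ∀ k l, i ≤ k → k < l → l ≤ j → a k < a l ∧ f (a k) (a l) = c
  win : ∀ k, i ≤ k → k < j → Wp k (a (k + 1) - a k)
  ord : ∀ k l, i ≤ k → k < j → i ≤ l → l < j → R k l → a (l + 1) - a l < a (k + 1) - a k

theorem Copy.mono {f : ℕ → ℕ → ℕ} {c : ℕ} {R : ℕ → ℕ → Prop} {Wp : ℕ → ℕ → Prop}
    {U V : Finset ℕ} {i j : ℕ} {a : ℕ → ℕ} (h : Copy f c R Wp U i j a) (hUV : U ⊆ V) :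
    Copy f c R Wp V i j a :=
  ⟨fun k h1 h2 => hUV (h.mem k h1 h2), h.col, h.win, h.ord⟩

theorem copy_single (f : ℕ → ℕ → ℕ) (c : ℕ) (R : ℕ → ℕ → Prop) (Wp : ℕ → ℕ → Prop)
    {U : Finset ℕ} (hU : U.Nonempty) {i j : ℕ} (hij : j ≤ i) : ∃ a, Copy f c R Wp U i j a := by
  obtain ⟨x, hx⟩ := hU
  exact ⟨fun _ => x, fun _ _ _ => hx, fun k l _ _ _ => by omega, fun k _ _ => by omega,
    fun k l _ _ _ _ _ => by omega⟩

theorem Copy.gap_lt {f : ℕ → ℕ → ℕ} {c : ℕ} {R : ℕ → ℕ → Prop} {Wp : ℕ → ℕ → Prop}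
    {U : Finset ℕ} {i j : ℕ} {a : ℕ → ℕ} (h : Copy f c R Wp U i j a) {hh o : ℕ}
    (hU : U ⊆ Cs hh o) (k : ℕ) (h1 : i ≤ k) (h2 : k < j) : a (k + 1) - a k < 3 ^ hh := by
  have a1 := Cs_range _ _ _ (hU (h.mem k h1 h2.le))
  have a2 := Cs_range _ _ _ (hU (h.mem (k + 1) (by omega) h2))
  omega

/-- Gluing two copies at the root gap `m`. -/
theorem merge {f : ℕ → ℕ → ℕ} {c : ℕ} {R : ℕ → ℕ → Prop} {W1 W2 Wp : ℕ → ℕ → Prop}
    {X Y U : Finset ℕ} {i m j h o : ℕ} {A B : ℕ → ℕ} (him : i ≤ m) (hmj : m < j)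
    (hA : Copy f c R W1 X i m A) (hB : Copy f c R W2 Y (m + 1) j B)
    (hX : X ⊆ Cs h o) (hY : Y ⊆ Cs h (o + 2 * 3 ^ h)) (hXU : X ⊆ U) (hYU : Y ⊆ U)
    (hcross : ∀ k l, i ≤ k → k ≤ m → m + 1 ≤ l → l ≤ j → f (A k) (B l) = c)
    (hW1 : ∀ k d, i ≤ k → k < m → d < 3 ^ h → W1 k d → Wp k d)
    (hW2 : ∀ k d, m < k → k < j → d < 3 ^ h → W2 k d → Wp k d)
    (hWm : ∀ d, 3 ^ h ≤ d → d < 3 ^ (h + 1) → Wp m d)
    (hRm : ∀ k, i ≤ k → k < j → ¬ R k m)
    (hR12 : ∀ k l d e, i ≤ k → k < m → m < l → l < j → W1 k d → W2 l e →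
      (R k l → e < d) ∧ (R l k → d < e)) :
    ∃ a, Copy f c R Wp U i j a := by
  have h3 : 0 < 3 ^ h := by positivity
  have rA : ∀ k, i ≤ k → k ≤ m → o ≤ A k ∧ A k < o + 3 ^ h := fun k h1 h2 =>
    Cs_range _ _ _ (hX (hA.mem k h1 h2))
  have rB : ∀ k, m + 1 ≤ k → k ≤ j → o + 2 * 3 ^ h ≤ B k ∧ B k < o + 2 * 3 ^ h + 3 ^ h :=
    fun k h1 h2 => Cs_range _ _ _ (hY (hB.mem k h1 h2))
  let a : ℕ → ℕ := fun k => if k ≤ m then A k else B k
  have eA : ∀ k, k ≤ m → a k = A k := fun k hk => by simp [a, hk]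
  have eB : ∀ k, m < k → a k = B k := fun k hk => by simp [a, not_le.2 hk]
  have gA : ∀ k, k < m → a (k + 1) - a k = A (k + 1) - A k := fun k hk => by
    rw [eA k hk.le, eA (k + 1) hk]
  have gB : ∀ k, m < k → a (k + 1) - a k = B (k + 1) - B k := fun k hk => by
    rw [eB k hk, eB (k + 1) (by omega)]
  have gm : 3 ^ h ≤ a (m + 1) - a m ∧ a (m + 1) - a m < 3 ^ (h + 1) := by
    rw [eA m le_rfl, eB (m + 1) (by omega), pow_succ]
    have := rA m him le_rfl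
    have := rB (m + 1) le_rfl hmj
    omega
  refine ⟨a, ?_, ?_, ?_, ?_⟩
  · intro k h1 h2
    by_cases hk : k ≤ m
    · rw [eA k hk]; exact hXU (hA.mem k h1 hk)
    · rw [eB k (by omega)]; exact hYU (hB.mem k (by omega) h2)
  · intro k l h1 h2 h4
    by_cases hl : l ≤ m
    · rw [eA k (by omega), eA l hl]; exact hA.col k l h1 h2 hl
    by_cases hk : k ≤ m
    · rw [eA k hk, eB l (by omega)]
      refine ⟨?_, hcross k l h1 hk (by omega) h4⟩
      have := rA k h1 hk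
      have := rB l (by omega) h4
      omega
    · rw [eB k (by omega), eB l (by omega)]; exact hB.col k l (by omega) h2 h4
  · intro k h1 h2
    rcases lt_trichotomy k m with hk | hk | hk
    · rw [gA k hk]; exact hW1 k _ h1 hk (hA.gap_lt hX k h1 hk) (hA.win k h1 hk)
    · subst hk; exact hWm _ gm.1 gm.2
    · rw [gB k hk]; exact hW2 k _ hk h2 (hB.gap_lt hY k hk h2) (hB.win k hk h2)
  · intro k l h1 h2 h4 h5 hR
    rcases lt_trichotomy l m with hl | hl | hl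
    · rcases lt_trichotomy k m with hk | hk | hk
      · rw [gA k hk, gA l hl]; exact hA.ord k l h1 hk h4 hl hR
      · subst hk
        rw [gA l hl]
        exact lt_of_lt_of_le (hA.gap_lt hX l h4 hl) gm.1
      · rw [gB k hk, gA l hl]
        exact (hR12 l k _ _ h4 hl hk h2 (hA.win l h4 hl) (hB.win k hk h2)).2 hR
    · subst hl; exact absurd hR (hRm k h1 h2)
    · rcases lt_trichotomy k m with hk | hk | hk
      · rw [gA k hk, gB l hl]
        exact (hR12 k l _ _ h1 hk hl h5 (hA.win k h1 hk) (hB.win l hl h5)).1 hR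
      · subst hk
        rw [gB l hl]
        exact lt_of_lt_of_le (hB.gap_lt hY l hl h5) gm.1
      · rw [gB k hk, gB l hl]; exact hB.ord k l hk h2 hl h5 hR

/-- The two-sided dichotomy from dependent random choice: the small side is handled first. -/
theorem dicho (q : ℕ) (f : ℕ → ℕ → ℕ) (c : ℕ) (X Y : Finset ℕ) (hX : X.Nonempty)
    (hY : Y.Nonempty) (D r : ℕ) (hr : 0 < r) (hXD : X.card ≤ 2 ^ D) (hYD : Y.card ≤ 2 ^ D)
    (hdens : (2 : ℝ) ^ (-(q : ℝ)) * X.card * Y.card ≤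
      ∑ x ∈ X, ((Y.filter (fun y => f x y = c)).card : ℝ)) (i m j : ℕ) (him : i ≤ m)
    (hmj : m < j) :
    (∃ X' ⊆ X, X'.Nonempty ∧ lg X - (r * q + 1) ≤ lg X' ∧
      ∀ A : ℕ → ℕ, (∀ k, i ≤ k → k ≤ m → A k ∈ X') →
        ∃ Y' ⊆ Y, Y'.Nonempty ∧ lg Y - (q + (D * ((m + 1 - i : ℕ) : ℝ) + 1) / r) ≤ lg Y' ∧
          ∀ k, i ≤ k → k ≤ m → ∀ y ∈ Y', f (A k) y = c) ∧
    (∃ Y' ⊆ Y, Y'.Nonempty ∧ lg Y - (r * q + 1) ≤ lg Y' ∧
      ∀ B : ℕ → ℕ, (∀ k, m + 1 ≤ k → k ≤ j → B k ∈ Y') →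
        ∃ X' ⊆ X, X'.Nonempty ∧ lg X - (q + (D * ((j - m : ℕ) : ℝ) + 1) / r) ≤ lg X' ∧
          ∀ k, m + 1 ≤ k → k ≤ j → ∀ x ∈ X', f x (B k) = c) := by
  constructor
  · obtain ⟨X', h1, h2, h3, h4⟩ := drc_log X Y (fun x y => f x y = c) hX hY q D (m + 1 - i) r
      (by omega) hr hXD hdens
    refine ⟨X', h1, h2, h3, fun A hA => ?_⟩
    obtain ⟨Y', k1, k2, k3, k4⟩ := h4 A i (fun k a1 a2 => hA k a1 (by omega))
    exact ⟨Y', k1, k2, k3, fun k a1 a2 => k4 k a1 (by omega)⟩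
  · have hdens' : (2 : ℝ) ^ (-(q : ℝ)) * Y.card * X.card ≤
        ∑ y ∈ Y, ((X.filter (fun x => f x y = c)).card : ℝ) := by
      rw [← sum_filter_swap X Y (fun x y => f x y = c)]
      linarith
    obtain ⟨Y', h1, h2, h3, h4⟩ := drc_log Y X (fun y x => f x y = c) hY hX q D (j - m) r
      (by omega) hr hYD hdens'
    refine ⟨Y', h1, h2, h3, fun B hB => ?_⟩
    obtain ⟨X', k1, k2, k3, k4⟩ := h4 B (m + 1) (fun k a1 a2 => hB k a1 (by omega))
    exact ⟨X', k1, k2, k3, fun k a1 a2 => k4 k a1 (by omega)⟩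

end Pool.Agent.P.MP_4cb405_co
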