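import Mathlib
import Pool.Agent.P.MP_4cb405_co.Basic

set_option autoImplicit false

namespace Pool.Agent.P.MP_4cb405_co

open Finset

/-- The potential of a type with `a` vertices. -/
noncomputable def gg (q D a : ℕ) : ℝ := (10 * q + 10) * Real.sqrt (D * a)

theorem gg_nonneg (q D a : ℕ) : 0 ≤ gg q D a := by unfold gg; positivity

theorem gg_mono (q D : ℕ) {a b : ℕ} (h : a ≤ b) : gg q D a ≤ gg q D b := by
  unfold gg
  have : (a : ℝ) ≤ b := by exact_mod_cast h
  gcongr

theorem gg_num (q D s s' : ℕ) (hs : 1 ≤ s) (hss : s ≤ s') (hD : s + s' ≤ D) :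
    ∃ r : ℕ, 0 < r ∧ 2 + ((r : ℝ) * q + 1) + gg q D s ≤ gg q D (s + s') + 1 / 2 ∧
      2 + (q + (D * (s : ℝ) + 1) / r) + gg q D s' ≤ gg q D (s + s') + 1 / 2 := by
  have hsR : (1 : ℝ) ≤ s := by exact_mod_cast hs
  have hssR : (s : ℝ) ≤ s' := by exact_mod_cast hss
  have hDR : (s : ℝ) + s' ≤ D := by exact_mod_cast hD
  have hq : (0 : ℝ) ≤ q := by positivity
  set x := Real.sqrt (D * ((s + s' : ℕ) : ℝ)) with hx
  have hx2 : x ^ 2 = D * (s + s') := by
    rw [hx, Real.sq_sqrt (by positivity)]; push_cast; ring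
  have hx0 : 0 ≤ x := Real.sqrt_nonneg _
  have hxa : (s : ℝ) + s' ≤ x := by
    apply Real.le_sqrt_of_sq_le
    push_cast
    nlinarith
  have hxD : x ≤ D := by
    apply Real.sqrt_le_iff.2
    refine ⟨by positivity, ?_⟩
    push_cast
    nlinarith
  have hx1 : 2 ≤ x := by linarith
  refine ⟨⌈x⌉₊, Nat.ceil_pos.2 (by linarith), ?_, ?_⟩
  · have hr : (⌈x⌉₊ : ℝ) ≤ x + 1 := (Nat.ceil_lt_add_one hx0).le
    have hy : Real.sqrt (D * (s : ℝ)) ≤ 71 / 100 * x := by
      apply Real.sqrt_le_iff.2
      refine ⟨by positivity, ?_⟩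
      rw [mul_pow, hx2]
      nlinarith
    unfold gg
    rw [← hx]
    have : (⌈x⌉₊ : ℝ) * q ≤ (x + 1) * q := by gcongr
    have h2 : (10 * (q : ℝ) + 10) * Real.sqrt (D * (s : ℝ)) ≤ (10 * q + 10) * (71 / 100 * x) := by
      gcongr
    nlinarith
  · have hr : x ≤ (⌈x⌉₊ : ℝ) := Nat.le_ceil x
    set y := Real.sqrt (D * (s' : ℝ)) with hy
    have hy2 : y ^ 2 = D * s' := by rw [hy, Real.sq_sqrt (by positivity)]
    have hy0 : 0 ≤ y := Real.sqrt_nonneg _
    have hxpos : 0 < x := by linarith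
    set z := D * (s : ℝ) / x with hz
    have hzx : z * x = D * s := by rw [hz]; field_simp
    have hz1 : 1 ≤ z := by
      rw [hz, le_div_iff₀ hxpos]
      nlinarith
    have hyx : y ≤ x := by
      apply Real.sqrt_le_iff.2
      refine ⟨hx0, ?_⟩
      rw [hx2]
      nlinarith
    have hd : z / 2 ≤ x - y := by
      have h1 : (x - y) * (x + y) = z * x := by rw [hzx]; nlinarith
      have h2 : (x - y) * (x + y) ≤ (x - y) * (2 * x) := by
        apply mul_le_mul_of_nonneg_left <;> linarith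
      have h3 : z * x ≤ (2 * (x - y)) * x := by linarith
      have := le_of_mul_le_mul_right h3 hxpos
      linarith
    have hq2 : (D * (s : ℝ) + 1) / ⌈x⌉₊ ≤ 2 * z := by
      rw [div_le_iff₀ (by linarith)]
      have : 2 * z * x ≤ 2 * z * ⌈x⌉₊ := by gcongr
      nlinarith
    unfold gg
    rw [← hx, ← hy]
    have h5 : (10 * (q : ℝ) + 10) * (z / 2) ≤ (10 * q + 10) * (x - y) := by gcongr
    nlinarith

/-- One act of colour `c` at a balanced level: pass to a child type in a dense subset. -/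
theorem act_block (q : ℕ) (f : ℕ → ℕ → ℕ) (ρ : ℕ → ℕ) (c D : ℕ) (Wp : ℕ → ℕ → Prop)
    {U : Finset ℕ} {h o i m j : ℕ} (hhD : h ≤ D) (hjD : j + 1 ≤ D)
    (hX : (U ∩ Cs h o).Nonempty) (hX2 : lg U - 2 ≤ lg (U ∩ Cs h o))
    (hY : (U ∩ Cs h (o + 2 * 3 ^ h)).Nonempty) (hY2 : lg U - 2 ≤ lg (U ∩ Cs h (o + 2 * 3 ^ h)))
    (hdens : (2 : ℝ) ^ (-(q : ℝ)) * (U ∩ Cs h o).card * (U ∩ Cs h (o + 2 * 3 ^ h)).card ≤
      ∑ x ∈ U ∩ Cs h o, (((U ∩ Cs h (o + 2 * 3 ^ h)).filter (fun y => f x y = c)).card : ℝ))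
    (him : i ≤ m) (hmj : m < j) (hmin : ∀ k, i ≤ k → k < j → ρ m ≤ ρ k)
    (habs : ¬ ∃ a, Copy f c (Nest ρ) Wp U i j a)
    (hWm : ∀ d, 3 ^ h ≤ d → d < 3 ^ (h + 1) → Wp m d) :
    ∃ V o' i' j', V ⊆ U ∧ V ⊆ Cs h o' ∧ V.Nonempty ∧ i ≤ i' ∧ i' < j' ∧ j' ≤ j ∧
      (¬ ∃ a, Copy f c (Nest ρ) Wp V i' j' a) ∧
      lg U - lg V + gg q D (j' + 1 - i') ≤ gg q D (j + 1 - i) + 1 / 2 := by
  set X := U ∩ Cs h o with hXdef
  set Y := U ∩ Cs h (o + 2 * 3 ^ h) with hYdef
  have hXC : X ⊆ Cs h o := Finset.inter_subset_right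
  have hYC : Y ⊆ Cs h (o + 2 * 3 ^ h) := Finset.inter_subset_right
  have hXU : X ⊆ U := Finset.inter_subset_left
  have hYU : Y ⊆ U := Finset.inter_subset_left
  have hXD : X.card ≤ 2 ^ D := by
    refine (Finset.card_le_card hXC).trans ?_
    rw [Cs_card]; exact Nat.pow_le_pow_right (by norm_num) hhD
  have hYD : Y.card ≤ 2 ^ D := by
    refine (Finset.card_le_card hYC).trans ?_
    rw [Cs_card]; exact Nat.pow_le_pow_right (by norm_num) hhD
  have glue : ∀ (X' Y' : Finset ℕ) (A B : ℕ → ℕ), X' ⊆ X → Y' ⊆ Y →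
      Copy f c (Nest ρ) Wp X' i m A → Copy f c (Nest ρ) Wp Y' (m + 1) j B →
      (∀ k l, i ≤ k → k ≤ m → m + 1 ≤ l → l ≤ j → f (A k) (B l) = c) → False := by
    intro X' Y' A B h1 h2 hA hB hcross
    apply habs
    refine merge him hmj hA hB (h1.trans hXC) (h2.trans hYC) (h1.trans hXU) (h2.trans hYU) hcross
      (fun _ _ _ _ _ hw => hw) (fun _ _ _ _ _ hw => hw) hWm ?_ ?_
    · intro k k1 k2 hR
      have := hR.2 m (by omega) (Ne.symm hR.1)
      have := hmin k k1 k2
      omega
    · intro k l d e k1 k2 k3 k4 _ _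
      constructor
      · intro hR
        have := hR.2 m (by omega) (by omega)
        have := hmin k k1 (by omega)
        omega
      · intro hR
        have := hR.2 m (by omega) (by omega)
        have := hmin l (by omega) k4
        omega
  by_cases hsm : m + 1 - i ≤ j - m
  · obtain ⟨r, hr, n1, n2⟩ := gg_num q D (m + 1 - i) (j - m) (by omega) hsm (by omega)
    rw [show m + 1 - i + (j - m) = j + 1 - i by omega] at n1 n2
    obtain ⟨⟨X', h1, h2, h3, h4⟩, -⟩ := dicho q f c X Y hX hY D r hr hXD hYD hdens i m j him hmj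
    by_cases hA : ∃ A, Copy f c (Nest ρ) Wp X' i m A
    · obtain ⟨A, hA⟩ := hA
      obtain ⟨Y', k1, k2, k3, k4⟩ := h4 A hA.mem
      have hnB : ¬ ∃ B, Copy f c (Nest ρ) Wp Y' (m + 1) j B := by
        rintro ⟨B, hB⟩
        exact glue X' Y' A B h1 k1 hA hB
          (fun k l a1 a2 a3 a4 => k4 k a1 a2 _ (hB.mem l a3 a4))
      refine ⟨Y', _, m + 1, j, k1.trans hYU, k1.trans hYC, k2, by omega, ?_, le_rfl, hnB, ?_⟩
      · by_contra hlt
        exact hnB (copy_single f c _ _ k2 (by omega))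
      · rw [show j + 1 - (m + 1) = j - m by omega]
        linarith
    · refine ⟨X', _, i, m, h1.trans hXU, h1.trans hXC, h2, le_rfl, ?_, hmj.le, hA, ?_⟩
      · by_contra hlt
        exact hA (copy_single f c _ _ h2 (by omega))
      · linarith
  · obtain ⟨r, hr, n1, n2⟩ := gg_num q D (j - m) (m + 1 - i) (by omega) (by omega) (by omega)
    rw [show j - m + (m + 1 - i) = j + 1 - i by omega] at n1 n2
    obtain ⟨-, ⟨Y', h1, h2, h3, h4⟩⟩ := dicho q f c X Y hX hY D r hr hXD hYD hdens i m j him hmj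
    by_cases hB : ∃ B, Copy f c (Nest ρ) Wp Y' (m + 1) j B
    · obtain ⟨B, hB⟩ := hB
      obtain ⟨X', k1, k2, k3, k4⟩ := h4 B hB.mem
      have hnA : ¬ ∃ A, Copy f c (Nest ρ) Wp X' i m A := by
        rintro ⟨A, hA⟩
        exact glue X' Y' A B k1 h1 hA hB
          (fun k l a1 a2 a3 a4 => k4 l a3 a4 _ (hA.mem k a1 a2))
      refine ⟨X', _, i, m, k1.trans hXU, k1.trans hXC, k2, le_rfl, ?_, hmj.le, hnA, ?_⟩
      · by_contra hlt
        exact hnA (copy_single f c _ _ k2 (by omega))
      · linarith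
    · refine ⟨Y', _, m + 1, j, h1.trans hYU, h1.trans hYC, h2, by omega, ?_, le_rfl, hB, ?_⟩
      · by_contra hlt
        exact hB (copy_single f c _ _ h2 (by omega))
      · rw [show j + 1 - (m + 1) = j - m by omega]
        linarith

theorem exists_root (ρ : ℕ → ℕ) {i j : ℕ} (hij : i < j) :
    ∃ m, i ≤ m ∧ m < j ∧ ∀ k, i ≤ k → k < j → ρ m ≤ ρ k := by
  obtain ⟨m, hm, hmin⟩ := Finset.exists_min_image (Finset.Ico i j) ρ ⟨i, by simp [hij]⟩
  rw [Finset.mem_Ico] at hm
  exact ⟨m, hm.1, hm.2, fun k h1 h2 => hmin k (Finset.mem_Ico.2 ⟨h1, h2⟩)⟩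

/-- Width of the nested window of depth `c`. -/
def wd (kk q W c : ℕ) : ℕ := kk ^ (q - c) * W

/-- Lower end of the nested window of depth `c`. -/
def lo (kk q W : ℕ) (β : ℕ → ℕ) : ℕ → ℕ
  | 0 => 0
  | c + 1 => lo kk q W β c + (kk - 1 - β c) * wd kk q W (c + 1)

/-- The window of gap `p` inside the window starting at `l` with sub-windows of width `w`. -/
def Win (kk : ℕ) (B : ℕ → ℕ) (l w p d : ℕ) : Prop :=
  3 ^ (l + (kk - 1 - B p) * w) ≤ d ∧ d < 3 ^ (l + (kk - 1 - B p) * w + w)

theorem wd_succ (kk q W c : ℕ) (hc : c < q) : wd kk q W c = kk * wd kk q W (c + 1) := by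
  unfold wd
  rw [show q - c = q - (c + 1) + 1 by omega, pow_succ]
  ring

theorem lo_le (kk q W : ℕ) (β : ℕ → ℕ) (c : ℕ) : ∀ e, lo kk q W β c ≤ lo kk q W β (c + e)
  | 0 => le_rfl
  | e + 1 => (lo_le kk q W β c e).trans (Nat.le_add_right _ _)

theorem lo_up (kk q W : ℕ) (hk : 0 < kk) (β : ℕ → ℕ) (c : ℕ) : ∀ e, c + e ≤ q →
    lo kk q W β (c + e) + wd kk q W (c + e) ≤ lo kk q W β c + wd kk q W c
  | 0, _ => le_rfl
  | e + 1, he => by
    refine le_trans ?_ (lo_up kk q W hk β c e (by omega))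
    rw [wd_succ kk q W (c + e) (by omega)]
    show lo kk q W β (c + e) + (kk - 1 - β (c + e)) * wd kk q W (c + e + 1) +
      wd kk q W (c + e + 1) ≤ _
    have : (kk - 1 - β (c + e) + 1) * wd kk q W (c + e + 1) ≤ kk * wd kk q W (c + e + 1) :=
      Nat.mul_le_mul_right _ (by omega)
    rw [add_mul, one_mul] at this
    omega

theorem lo_congr (kk q W : ℕ) (β β' : ℕ → ℕ) : ∀ c, (∀ d < c, β d = β' d) →
    lo kk q W β c = lo kk q W β' c
  | 0, _ => rfl
  | c + 1, h => by
    simp only [lo]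
    rw [lo_congr kk q W β β' c (fun d hd => h d (by omega)), h c (by omega)]

theorem block_main (q : ℕ) (hq : 0 < q) (f : ℕ → ℕ → ℕ) (hf : ∀ x y, f x y < q)
    (ρ B : ℕ → ℕ) (kk n W D : ℕ) (hn : 0 < n) (hW : 0 < W) (hB : ∀ p, B p < kk)
    (hBm : ∀ p p', p < n → p' < n → ρ p ≤ ρ p' → B p ≤ B p') (hD : D = kk ^ q * W)
    (hnD : n + 1 ≤ D) (U0 : Finset ℕ)
    (hno : ∀ c < q, ∀ l w, ¬ ∃ a, Copy f c (Nest ρ) (Win kk B l w) U0 0 n a) :
    ∀ (h o : ℕ) (U : Finset ℕ) (I J M : ℕ → ℕ), U ⊆ Cs h o → U ⊆ U0 → U.Nonempty →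
      (∀ c < q, I c ≤ M c ∧ M c < J c ∧ J c ≤ n ∧ ∀ k, I c ≤ k → k < J c → ρ (M c) ≤ ρ k) →
      (∀ c < q, ¬ ∃ a, Copy f c (Nest ρ)
        (Win kk B (lo kk q W (fun d => B (M d)) c) (wd kk q W (c + 1))) U (I c) (J c) a) →
      h ≤ lo kk q W (fun d => B (M d)) q + W →
      2 * (h - lg U + (lo kk q W (fun d => B (M d)) (q - 1) : ℝ) * (q * gg q D (n + 1) / (kk * W))
        + ∑ c ∈ range q, gg q D (J c + 1 - I c)) ≤ (h : ℝ) - lo kk q W (fun d => B (M d)) q →
      False := by
  have hk : 0 < kk := lt_of_le_of_lt (Nat.zero_le _) (hB 0)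
  have hkR : (0 : ℝ) < kk := by exact_mod_cast hk
  have hWR : (0 : ℝ) < W := by exact_mod_cast hW
  have hgn := gg_nonneg q D (n + 1)
  obtain ⟨m0, hm0a, hm0b, hm0c⟩ := exists_root ρ hn
  intro h
  induction h using Nat.strong_induction_on with
  | _ h ih =>
  intro o U I J M hUC hU0 hU hroot habs hh hinv
  set β : ℕ → ℕ := fun d => B (M d) with hβ
  set γ : ℝ := q * gg q D (n + 1) / (kk * W) with hγ
  have hγ0 : 0 ≤ γ := by positivity
  have hdef : lg U ≤ h := lg_le_height hU hUC
  have hsum : 0 < ∑ c ∈ range q, gg q D (J c + 1 - I c) := by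
    apply Finset.sum_pos _ ⟨0, by simpa using hq⟩
    intro c hc
    have := hroot c (by simpa using hc)
    unfold gg
    have h1 : (0 : ℝ) < D := by exact_mod_cast (by omega : 0 < D)
    have h2 : (0 : ℝ) < ((J c + 1 - I c : ℕ) : ℝ) := by exact_mod_cast (by omega : 0 < J c + 1 - I c)
    positivity
  have hlt : lo kk q W β q < h := by
    have h1 : (0 : ℝ) ≤ (lo kk q W β (q - 1) : ℝ) * γ := by positivity
    have : (lo kk q W β q : ℝ) < h := by linarith
    exact_mod_cast this
  obtain ⟨h', rfl⟩ : ∃ h', h = h' + 1 := ⟨h - 1, by omega⟩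
  have hwq : wd kk q W q = W := by simp [wd]
  have hhD : h' + 1 ≤ D := by
    have := lo_up kk q W hk β 0 q (by omega)
    rw [zero_add, hwq] at this
    simp only [lo, wd, Nat.sub_zero, zero_add] at this
    omega
  rcases split_level hU hUC with ⟨V, o', h1, h2, h3, h4⟩ | ⟨hX, hX2, hY, hY2⟩
  · refine ih h' (by omega) o' V I J M h2 (h1.trans hU0) h3 hroot ?_
      (by show h' ≤ lo kk q W β q + W; omega) ?_
    · rintro c hc ⟨a, ha⟩
      exact habs c hc ⟨a, ha.mono h1⟩
    · push_cast at hinv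
      linarith
  obtain ⟨c, hc, hdens⟩ := majority q hq f hf (U ∩ Cs h' o) (U ∩ Cs h' (o + 2 * 3 ^ h'))
  obtain ⟨r1, r2, r3, r4⟩ := hroot c hc
  have hlo1 : lo kk q W β (c + 1) ≤ lo kk q W β q := by
    have := lo_le kk q W β (c + 1) (q - (c + 1))
    rwa [show c + 1 + (q - (c + 1)) = q by omega] at this
  have hlo2 : lo kk q W β q + W ≤ lo kk q W β (c + 1) + wd kk q W (c + 1) := by
    have := lo_up kk q W hk β (c + 1) (q - (c + 1)) (by omega)
    rwa [show c + 1 + (q - (c + 1)) = q by omega, hwq] at this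
  have hloc : lo kk q W β (c + 1) = lo kk q W β c + (kk - 1 - B (M c)) * wd kk q W (c + 1) := rfl
  obtain ⟨V, o', i', j', v1, v2, v3, v4, v5, v6, v7, v8⟩ := act_block q f ρ c D _
    (by omega : h' ≤ D) (by omega : J c + 1 ≤ D) hX hX2 hY hY2 hdens r1 r2 r4 (habs c hc)
    (fun d d1 d2 => ⟨le_trans (Nat.pow_le_pow_right (by norm_num) (by omega)) d1,
      lt_of_lt_of_le d2 (Nat.pow_le_pow_right (by norm_num) (by omega))⟩)
  obtain ⟨m', m1, m2, m3⟩ := exists_root ρ v5
  have hBle : B (M c) ≤ B m' := hBm _ _ (by omega) (by omega) (r4 m' (by omega) (by omega))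
  rcases hBle.eq_or_lt with hBe | hBl
  · -- same block
    have hββ : (fun d => B (Function.update M c m' d)) = β := by
      funext d
      by_cases hd : d = c
      · subst hd; simp [hβ, hBe]
      · simp [hβ, Function.update_of_ne hd]
    refine ih h' (by omega) o' V (Function.update I c i') (Function.update J c j')
      (Function.update M c m') v2 (v1.trans hU0) v3 ?_ ?_ ?_ ?_
    · intro d hd
      by_cases hdc : d = c
      · subst hdc
        simp only [Function.update_self]
        exact ⟨m1, m2, by omega, m3⟩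
      · simp only [Function.update_of_ne hdc]
        exact hroot d hd
    · intro d hd
      rw [hββ]
      by_cases hdc : d = c
      · subst hdc
        simp only [Function.update_self]
        exact v7
      · simp only [Function.update_of_ne hdc]
        rintro ⟨a, ha⟩
        exact habs d hd ⟨a, ha.mono v1⟩
    · rw [hββ]; omega
    · rw [hββ]
      have e1 : ∑ d ∈ range q, gg q D (Function.update J c j' d + 1 - Function.update I c i' d) =
          ∑ d ∈ range q, gg q D (J d + 1 - I d) - gg q D (J c + 1 - I c) +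
            gg q D (j' + 1 - i') := by
        have hcq : c ∈ range q := by simpa using hc
        rw [← Finset.add_sum_erase _ _ hcq, ← Finset.add_sum_erase (range q)
          (fun d => gg q D (J d + 1 - I d)) hcq]
        simp only [Function.update_self]
        rw [Finset.sum_congr rfl (g := fun d => gg q D (J d + 1 - I d))]
        · ring
        · intro d hd
          have := (Finset.mem_erase.1 hd).1
          simp only [Function.update_of_ne this]
      rw [e1]
      push_cast at hinv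
      linarith
  · -- jump to a later block
    let I' : ℕ → ℕ := fun d => if d < c then I d else if d = c then i' else 0
    let J' : ℕ → ℕ := fun d => if d < c then J d else if d = c then j' else n
    let M' : ℕ → ℕ := fun d => if d < c then M d else if d = c then m' else m0
    set β' : ℕ → ℕ := fun d => B (M' d) with hβ'
    have hcong : ∀ d ≤ c, lo kk q W β' d = lo kk q W β d := by
      intro d hd
      apply lo_congr
      intro e he
      simp [hβ', hβ, M', show e < c by omega]
    have hjump : lo kk q W β' (c + 1) + wd kk q W (c + 1) ≤ lo kk q W β (c + 1) := by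
      have e1 : lo kk q W β' (c + 1) = lo kk q W β' c + (kk - 1 - β' c) * wd kk q W (c + 1) := rfl
      have e2 : β' c = B m' := by simp [hβ', M']
      rw [e1, e2, hcong c le_rfl, hloc]
      have := hB m'
      have h5 : (kk - 1 - B m' + 1) * wd kk q W (c + 1) ≤ (kk - 1 - B (M c)) * wd kk q W (c + 1) :=
        Nat.mul_le_mul_right _ (by omega)
      rw [add_mul, one_mul] at h5
      omega
    have hlo3 : lo kk q W β' q + W ≤ lo kk q W β' (c + 1) + wd kk q W (c + 1) := by
      have := lo_up kk q W hk β' (c + 1) (q - (c + 1)) (by omega)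
      rwa [show c + 1 + (q - (c + 1)) = q by omega, hwq] at this
    obtain ⟨e, he⟩ : ∃ e, h' = lo kk q W β' q + W + e := ⟨h' - (lo kk q W β' q + W), by omega⟩
    obtain ⟨V', o'', u1, u2, u3, u4⟩ := descend e (h := lo kk q W β' q + W) v3 (he ▸ v2)
    refine ih (lo kk q W β' q + W) (by omega) o'' V' I' J' M' u2 ((u1.trans v1).trans hU0) u3
      ?_ ?_ le_rfl ?_
    · intro d hd
      rcases lt_trichotomy d c with hdc | hdc | hdc
      · simp only [I', J', M', hdc, if_true]
        exact hroot d hd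
      · subst hdc
        simp only [I', J', M', lt_irrefl, if_false, if_true]
        exact ⟨m1, m2, by omega, m3⟩
      · simp only [I', J', M', show ¬ d < c by omega, show ¬ d = c by omega, if_false]
        exact ⟨hm0a, hm0b, le_rfl, hm0c⟩
    · intro d hd
      rcases lt_trichotomy d c with hdc | hdc | hdc
      · rw [hcong d hdc.le]
        simp only [I', J', hdc, if_true]
        rintro ⟨a, ha⟩
        exact habs d hd ⟨a, ha.mono (u1.trans v1)⟩
      · subst hdc
        rw [hcong d le_rfl]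
        simp only [I', J', lt_irrefl, if_false, if_true]
        rintro ⟨a, ha⟩
        exact v7 ⟨a, ha.mono u1⟩
      · simp only [I', J', show ¬ d < c by omega, show ¬ d = c by omega, if_false]
        rintro ⟨a, ha⟩
        exact hno d hd _ _ ⟨a, ha.mono ((u1.trans v1).trans hU0)⟩
    · have hcq : c ∈ range q := by simpa using hc
      have e1 : ∑ d ∈ range q, gg q D (J' d + 1 - I' d) ≤
          ∑ d ∈ range q, gg q D (J d + 1 - I d) - gg q D (J c + 1 - I c) +
            gg q D (j' + 1 - i') + (if c + 1 < q then q * gg q D (n + 1) else 0) := by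
        have hpt : ∀ d ∈ range q, gg q D (J' d + 1 - I' d) ≤ gg q D (J d + 1 - I d) +
            (if d = c then gg q D (j' + 1 - i') - gg q D (J c + 1 - I c) else 0) +
            (if c + 1 < q then gg q D (n + 1) else 0) := by
          intro d hd
          have hd' : d < q := by simpa using hd
          have hif : 0 ≤ (if c + 1 < q then gg q D (n + 1) else 0) := by split_ifs <;> simp [hgn]
          rcases lt_trichotomy d c with hdc | hdc | hdc
          · simp only [I', J', hdc, if_true, show ¬ d = c by omega, if_false]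
            linarith
          · subst hdc
            simp only [I', J', lt_irrefl, if_false, if_true]
            linarith
          · simp only [I', J', show ¬ d < c by omega, show ¬ d = c by omega, if_false,
              show c + 1 < q by omega, if_true, Nat.sub_zero]
            linarith [gg_nonneg q D (J d + 1 - I d)]
        refine (Finset.sum_le_sum hpt).trans (le_of_eq ?_)
        rw [Finset.sum_add_distrib, Finset.sum_add_distrib, Finset.sum_ite_eq' (range q) c]
        simp only [hcq, if_true, sum_const, card_range, nsmul_eq_mul]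
        split_ifs <;> ring
      have e2 : (lo kk q W β' (q - 1) : ℝ) * γ + (if c + 1 < q then q * gg q D (n + 1) else 0) ≤
          (lo kk q W β (q - 1) : ℝ) * γ := by
        split_ifs with hcq'
        · have a1 := lo_up kk q W hk β' (c + 1) (q - 1 - (c + 1)) (by omega)
          have a2 := lo_le kk q W β (c + 1) (q - 1 - (c + 1))
          rw [show c + 1 + (q - 1 - (c + 1)) = q - 1 by omega] at a1 a2
          have a3 : wd kk q W (q - 1) = kk * W := by
            simp [wd, show q - (q - 1) = 1 by omega]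
          have a4 : (lo kk q W β' (q - 1) : ℝ) + kk * W ≤ lo kk q W β (q - 1) := by
            exact_mod_cast (by omega : lo kk q W β' (q - 1) + kk * W ≤ lo kk q W β (q - 1))
          have a5 : (q : ℝ) * gg q D (n + 1) = (kk * W) * γ := by rw [hγ]; field_simp
          rw [a5]
          nlinarith
        · rw [hcong (q - 1) (by omega)]; simp
      have hhR : ((h' + 1 : ℕ) : ℝ) ≤ lo kk q W β q + W := by exact_mod_cast hh
      have heR : (h' : ℝ) = lo kk q W β' q + W + e := by exact_mod_cast he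
      push_cast at hinv hhR ⊢
      linarith

end Pool.Agent.P.MP_4cb405_co
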