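import Mathlib
import Pool.Agent.P.MP_4cb405_co.Block

set_option autoImplicit false

namespace Pool.Agent.P.MP_4cb405_co

open Finset

/-- Cost of one binary-search step when the smaller child has `s` vertices. -/
noncomputable def kap (q D s : ℕ) : ℝ := (2 * q + 4) * Real.sqrt (D * s)

/-- Additive potential of a type with `a` vertices. -/
noncomputable def GG (q D a : ℕ) : ℝ :=
  ((Nat.clog 2 D * (2 * q + 4) + 1) * Real.sqrt D) * (2 * a - 2 * Real.sqrt a)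

theorem kap_nonneg (q D s : ℕ) : 0 ≤ kap q D s := by unfold kap; positivity

theorem GG_nonneg (q D a : ℕ) : 0 ≤ GG q D a := by
  unfold GG
  apply mul_nonneg (by positivity)
  have : Real.sqrt a ≤ a := by
    apply Real.sqrt_le_iff.2
    refine ⟨by positivity, ?_⟩
    exact_mod_cast (by nlinarith [Nat.zero_le a, Nat.le_mul_self a] : a ≤ a ^ 2)
  linarith

theorem GG_split_aux (q D s s' : ℕ) (hD : 1 ≤ D) (hs : 1 ≤ s) (hss : s ≤ s') :
    GG q D s + GG q D s' + 1 / 2 + kap q D s * Nat.clog 2 D ≤ GG q D (s + s') := by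
  have hsR : (1 : ℝ) ≤ s := by exact_mod_cast hs
  have hssR : (s : ℝ) ≤ s' := by exact_mod_cast hss
  have hDR : (1 : ℝ) ≤ D := by exact_mod_cast hD
  set x := Real.sqrt (s : ℝ) with hx
  set y := Real.sqrt (s' : ℝ) with hy
  set e := Real.sqrt (D : ℝ) with he
  have hx2 : x ^ 2 = s := Real.sq_sqrt (by positivity)
  have hy2 : y ^ 2 = s' := Real.sq_sqrt (by positivity)
  have hx1 : 1 ≤ x := Real.one_le_sqrt.2 hsR
  have he1 : 1 ≤ e := Real.one_le_sqrt.2 hDR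
  have hxy : x ≤ y := Real.sqrt_le_sqrt hssR
  have hz : Real.sqrt ((s + s' : ℕ) : ℝ) ≤ y + x / 2 := by
    apply Real.sqrt_le_iff.2
    refine ⟨by positivity, ?_⟩
    push_cast
    nlinarith
  have hk : kap q D s = (2 * q + 4) * (e * x) := by
    unfold kap
    rw [Real.sqrt_mul (by positivity)]
  unfold GG
  rw [hk, ← hx, ← hy, ← he]
  set Λ := ((Nat.clog 2 D : ℝ) * (2 * q + 4) + 1) * e with hΛ
  have hΛ0 : 0 ≤ Λ := by positivity
  have h1 : Λ * (2 * (s + s') - 2 * (y + x / 2)) ≤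
      Λ * (2 * ((s + s' : ℕ) : ℝ) - 2 * Real.sqrt ((s + s' : ℕ) : ℝ)) := by
    apply mul_le_mul_of_nonneg_left _ hΛ0
    push_cast at hz ⊢
    linarith
  have h2 : Λ * x = (2 * q + 4) * (e * x) * Nat.clog 2 D + e * x := by rw [hΛ]; ring
  have h3 : 1 ≤ e * x := by nlinarith
  nlinarith

theorem GG_split (q D s s' : ℕ) (hD : 1 ≤ D) (hs : 1 ≤ s) (hs' : 1 ≤ s') :
    GG q D s + GG q D s' + 1 / 2 + kap q D (min s s') * Nat.clog 2 D ≤ GG q D (s + s') := by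
  rcases le_total s s' with h | h
  · rw [min_eq_left h]; exact GG_split_aux q D s s' hD hs h
  · rw [min_eq_right h, add_comm s s', add_comm (GG q D s)]
    exact GG_split_aux q D s' s hD hs' h

theorem kap_num (q D s : ℕ) (hD : 1 ≤ D) (hs : 1 ≤ s) :
    ∃ r : ℕ, 0 < r ∧ 2 + ((r : ℝ) * q + 1) ≤ kap q D s ∧
      2 + (q + (D * (s : ℝ) + 1) / r) ≤ kap q D s := by
  have hsR : (1 : ℝ) ≤ s := by exact_mod_cast hs
  have hDR : (1 : ℝ) ≤ D := by exact_mod_cast hD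
  have hq : (0 : ℝ) ≤ q := by positivity
  set x := Real.sqrt (D * (s : ℝ)) with hx
  have hx2 : x ^ 2 = D * s := Real.sq_sqrt (by positivity)
  have hx1 : 1 ≤ x := Real.one_le_sqrt.2 (by nlinarith)
  refine ⟨⌈x⌉₊, Nat.ceil_pos.2 (by linarith), ?_, ?_⟩
  · have hr : (⌈x⌉₊ : ℝ) ≤ x + 1 := (Nat.ceil_lt_add_one (by linarith)).le
    have : (⌈x⌉₊ : ℝ) * q ≤ (x + 1) * q := by gcongr
    unfold kap
    rw [← hx]
    nlinarith
  · have hr : x ≤ (⌈x⌉₊ : ℝ) := Nat.le_ceil x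
    have hq2 : (D * (s : ℝ) + 1) / ⌈x⌉₊ ≤ 2 * x := by
      rw [div_le_iff₀ (by linarith)]
      nlinarith
    unfold kap
    rw [← hx]
    nlinarith

/-- One attempt at a balanced level: one of the two children is absent in a dense subset. -/
theorem attempt (q : ℕ) (f : ℕ → ℕ → ℕ) (c D : ℕ) (R W1 W2 : ℕ → ℕ → Prop)
    {U : Finset ℕ} {h o i m j : ℕ} (hhD : h + 1 ≤ D)
    (hX : (U ∩ Cs h o).Nonempty) (hX2 : lg U - 2 ≤ lg (U ∩ Cs h o))
    (hY : (U ∩ Cs h (o + 2 * 3 ^ h)).Nonempty) (hY2 : lg U - 2 ≤ lg (U ∩ Cs h (o + 2 * 3 ^ h)))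
    (hdens : (2 : ℝ) ^ (-(q : ℝ)) * (U ∩ Cs h o).card * (U ∩ Cs h (o + 2 * 3 ^ h)).card ≤
      ∑ x ∈ U ∩ Cs h o, (((U ∩ Cs h (o + 2 * 3 ^ h)).filter (fun y => f x y = c)).card : ℝ))
    (him : i ≤ m) (hmj : m < j)
    (glue : ∀ (X' Y' : Finset ℕ) (A B : ℕ → ℕ), X' ⊆ U ∩ Cs h o → Y' ⊆ U ∩ Cs h (o + 2 * 3 ^ h) →
      Copy f c R W1 X' i m A → Copy f c R W2 Y' (m + 1) j B →
      (∀ k l, i ≤ k → k ≤ m → m + 1 ≤ l → l ≤ j → f (A k) (B l) = c) → False) :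
    ∃ V o', V ⊆ U ∧ V ⊆ Cs h o' ∧ V.Nonempty ∧
      lg U - lg V ≤ kap q D (min (m + 1 - i) (j - m)) ∧
      ((¬ ∃ a, Copy f c R W1 V i m a) ∨ ¬ ∃ a, Copy f c R W2 V (m + 1) j a) := by
  set X := U ∩ Cs h o with hXdef
  set Y := U ∩ Cs h (o + 2 * 3 ^ h) with hYdef
  have hXC : X ⊆ Cs h o := Finset.inter_subset_right
  have hYC : Y ⊆ Cs h (o + 2 * 3 ^ h) := Finset.inter_subset_right
  have hXU : X ⊆ U := Finset.inter_subset_left
  have hYU : Y ⊆ U := Finset.inter_subset_left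
  have hXD : X.card ≤ 2 ^ D := by
    refine (Finset.card_le_card hXC).trans ?_
    rw [Cs_card]; exact Nat.pow_le_pow_right (by norm_num) (by omega)
  have hYD : Y.card ≤ 2 ^ D := by
    refine (Finset.card_le_card hYC).trans ?_
    rw [Cs_card]; exact Nat.pow_le_pow_right (by norm_num) (by omega)
  by_cases hsm : m + 1 - i ≤ j - m
  · rw [min_eq_left hsm]
    obtain ⟨r, hr, n1, n2⟩ := kap_num q D (m + 1 - i) (by omega) (by omega)
    obtain ⟨⟨X', h1, h2, h3, h4⟩, -⟩ := dicho q f c X Y hX hY D r hr hXD hYD hdens i m j him hmj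
    by_cases hA : ∃ A, Copy f c R W1 X' i m A
    · obtain ⟨A, hA⟩ := hA
      obtain ⟨Y', k1, k2, k3, k4⟩ := h4 A hA.mem
      refine ⟨Y', _, k1.trans hYU, k1.trans hYC, k2, by linarith, Or.inr ?_⟩
      rintro ⟨B, hB⟩
      exact glue X' Y' A B h1 k1 hA hB (fun k l a1 a2 a3 a4 => k4 k a1 a2 _ (hB.mem l a3 a4))
    · exact ⟨X', _, h1.trans hXU, h1.trans hXC, h2, by linarith, Or.inl hA⟩
  · rw [min_eq_right (by omega)]
    obtain ⟨r, hr, n1, n2⟩ := kap_num q D (j - m) (by omega) (by omega)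
    obtain ⟨-, ⟨Y', h1, h2, h3, h4⟩⟩ := dicho q f c X Y hX hY D r hr hXD hYD hdens i m j him hmj
    by_cases hB : ∃ B, Copy f c R W2 Y' (m + 1) j B
    · obtain ⟨B, hB⟩ := hB
      obtain ⟨X', k1, k2, k3, k4⟩ := h4 B hB.mem
      refine ⟨X', _, k1.trans hXU, k1.trans hXC, k2, by linarith, Or.inl ?_⟩
      rintro ⟨A, hA⟩
      exact glue X' Y' A B k1 h1 hA hB (fun k l a1 a2 a3 a4 => k4 l a3 a4 _ (hA.mem k a1 a2))
    · exact ⟨Y', _, h1.trans hYU, h1.trans hYC, h2, by linarith, Or.inr hB⟩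

/-- No copy of the type `[i, j]` in `U` with all gap heights in `(l, h]`. -/
def Abs (f : ℕ → ℕ → ℕ) (c : ℕ) (ρ : ℕ → ℕ) (U : Finset ℕ) (i j l h : ℕ) : Prop :=
  ¬ ∃ a, Copy f c (fun k k' => ρ k < ρ k') (fun _ d => 3 ^ l ≤ d ∧ d < 3 ^ h) U i j a

theorem Abs.mono {f : ℕ → ℕ → ℕ} {c : ℕ} {ρ : ℕ → ℕ} {U V : Finset ℕ} {i j l h h' : ℕ}
    (H : Abs f c ρ U i j l h) (hV : V ⊆ U) (hh : h' ≤ h) : Abs f c ρ V i j l h' := by
  rintro ⟨a, ha⟩
  exact H ⟨a, fun k h1 h2 => hV (ha.mem k h1 h2), ha.col, fun k h1 h2 =>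
    ⟨(ha.win k h1 h2).1, lt_of_lt_of_le (ha.win k h1 h2).2
      (Nat.pow_le_pow_right (by norm_num) hh)⟩, ha.ord⟩

/-- The child `[fi, fj]` comes first in rank order, the child `[si, sj]` second. -/
def Ori (ρ : ℕ → ℕ) (i m j fi fj si sj : ℕ) : Prop :=
  (fi = i ∧ fj = m ∧ si = m + 1 ∧ sj = j ∧ ∀ k l, i ≤ k → k < m → m < l → l < j → ρ k < ρ l) ∨
  (fi = m + 1 ∧ fj = j ∧ si = i ∧ sj = m ∧ ∀ k l, i ≤ k → k < m → m < l → l < j → ρ l < ρ k)

/-- Certificate that colour `c` can use all but few of the levels up to height `h`. -/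
inductive Cert (q D n : ℕ) (f : ℕ → ℕ → ℕ) (c : ℕ) (ρ : ℕ → ℕ) (U : Finset ℕ) : ℕ → ℝ → Prop
  | done (Φ : ℝ) : 0 ≤ Φ → Cert q D n f c ρ U 0 Φ
  | skip (h : ℕ) (Φ Φ' : ℝ) : Cert q D n f c ρ U h Φ' → Φ' + 1 / 2 ≤ Φ →
      Cert q D n f c ρ U (h + 1) Φ
  | search (h l α β i m j fi fj si sj : ℕ) (Φ Φ' : ℝ) : l < h → l ≤ β → β + 2 ≤ α → α ≤ D →
      i ≤ m → m < j → j ≤ n → (∀ k, i ≤ k → k < j → ρ m ≤ ρ k) → Ori ρ i m j fi fj si sj →
      Abs f c ρ U i j l h → (h ≤ α ∨ Abs f c ρ U fi fj α h) → (β ≤ l ∨ Abs f c ρ U si sj l β) →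
      Cert q D n f c ρ U l Φ' →
      Φ' + GG q D (m + 1 - i) + GG q D (j - m) + 1 / 2 +
        kap q D (min (m + 1 - i) (j - m)) * Nat.clog 2 (α - β) ≤ Φ →
      Cert q D n f c ρ U h Φ

section
variable {q D n : ℕ} {f : ℕ → ℕ → ℕ} {c : ℕ} {ρ : ℕ → ℕ}

theorem Cert.nonneg {U : Finset ℕ} {h : ℕ} {Φ : ℝ} (H : Cert q D n f c ρ U h Φ) : 0 ≤ Φ := by
  induction H with
  | done Φ h => exact h
  | skip h Φ Φ' _ h2 ih => linarith
  | search h l α β i m j fi fj si sj Φ Φ' _ _ _ _ _ _ _ _ _ _ _ _ _ h2 ih =>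
    have := GG_nonneg q D (m + 1 - i)
    have := GG_nonneg q D (j - m)
    have : 0 ≤ kap q D (min (m + 1 - i) (j - m)) * Nat.clog 2 (α - β) :=
      mul_nonneg (kap_nonneg _ _ _) (by positivity)
    linarith

theorem Cert.le {U : Finset ℕ} {h : ℕ} {Φ Ψ : ℝ} (H : Cert q D n f c ρ U h Φ) (hle : Φ ≤ Ψ) :
    Cert q D n f c ρ U h Ψ := by
  cases H with
  | done Φ h => exact Cert.done _ (h.trans hle)
  | skip h Φ Φ' h1 h2 => exact Cert.skip _ _ _ h1 (h2.trans hle)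
  | search h l α β i m j fi fj si sj Φ Φ' a1 a2 a3 a4 a5 a6 a7 a8 a9 a10 a11 a12 a13 a14 =>
    exact Cert.search _ l α β i m j fi fj si sj _ Φ' a1 a2 a3 a4 a5 a6 a7 a8 a9 a10 a11 a12 a13
      (a14.trans hle)

theorem Cert.sub {U V : Finset ℕ} (hV : V ⊆ U) {h : ℕ} {Φ : ℝ} (H : Cert q D n f c ρ U h Φ) :
    Cert q D n f c ρ V h Φ := by
  induction H with
  | done Φ h => exact Cert.done _ h
  | skip h Φ Φ' _ h2 ih => exact Cert.skip _ _ _ ih h2
  | search h l α β i m j fi fj si sj Φ Φ' a1 a2 a3 a4 a5 a6 a7 a8 a9 a10 a11 a12 _ a14 ih =>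
    exact Cert.search _ l α β i m j fi fj si sj _ Φ' a1 a2 a3 a4 a5 a6 a7 a8 a9
      (a10.mono hV le_rfl) (a11.imp id (fun h => h.mono hV le_rfl))
      (a12.imp id (fun h => h.mono hV le_rfl)) ih a14

theorem Cert.down1 {U : Finset ℕ} {h : ℕ} {Φ : ℝ} (H : Cert q D n f c ρ U (h + 1) Φ) :
    Cert q D n f c ρ U h Φ := by
  cases H with
  | skip _ _ Φ' h1 h2 => exact h1.le (by linarith)
  | search _ l α β i m j fi fj si sj _ Φ' a1 a2 a3 a4 a5 a6 a7 a8 a9 a10 a11 a12 a13 a14 =>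
    by_cases hl : l < h
    · exact Cert.search _ l α β i m j fi fj si sj _ Φ' hl a2 a3 a4 a5 a6 a7 a8 a9
        (a10.mono Subset.rfl (by omega))
        (a11.imp (fun h => by omega) (fun h => h.mono Subset.rfl (by omega))) a12 a13 a14
    · have : l = h := by omega
      subst this
      refine a13.le ?_
      have := GG_nonneg q D (m + 1 - i)
      have := GG_nonneg q D (j - m)
      have : 0 ≤ kap q D (min (m + 1 - i) (j - m)) * Nat.clog 2 (α - β) :=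
        mul_nonneg (kap_nonneg _ _ _) (by positivity)
      linarith

theorem Cert.down {U : Finset ℕ} {h h' : ℕ} {Φ : ℝ} (H : Cert q D n f c ρ U h Φ) (hh : h' ≤ h) :
    Cert q D n f c ρ U h' Φ := by
  obtain ⟨e, rfl⟩ := Nat.exists_eq_add_of_le hh
  induction e with
  | zero => exact H
  | succ e ih => exact ih (Cert.down1 H) (by omega)

/-- The separation property of a rank function. -/
def Sep (ρ : ℕ → ℕ) (n : ℕ) : Prop :=
  ∀ i m j, i ≤ m → m < j → j ≤ n → (∀ k, i ≤ k → k < j → ρ m ≤ ρ k) →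
    (∀ k l, i ≤ k → k < m → m < l → l < j → ρ k < ρ l) ∨
    (∀ k l, i ≤ k → k < m → m < l → l < j → ρ l < ρ k)

theorem Cert.fresh (hsep : Sep ρ n) {U : Finset ℕ} (hU : U.Nonempty) {i j l h : ℕ} {Φ : ℝ}
    (hj : j ≤ n) (hh : h ≤ D) (habs : Abs f c ρ U i j l h) (H : Cert q D n f c ρ U l Φ) :
    Cert q D n f c ρ U h (Φ + GG q D (j + 1 - i)) := by
  by_cases h0 : h ≤ l
  · exact (H.down h0).le (by linarith [GG_nonneg q D (j + 1 - i)])
  have hij : i < j := by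
    by_contra hlt
    exact habs (copy_single f c _ _ hU (by omega))
  obtain ⟨m, m1, m2, m3⟩ := exists_root ρ hij
  have hG := GG_split q D (m + 1 - i) (j - m) (by omega) (by omega) (by omega)
  rw [show m + 1 - i + (j - m) = j + 1 - i by omega] at hG
  have g1 := GG_nonneg q D (m + 1 - i)
  have g2 := GG_nonneg q D (j - m)
  have g3 := kap_nonneg q D (min (m + 1 - i) (j - m))
  by_cases h1 : h = l + 1
  · subst h1
    refine Cert.skip _ _ _ H ?_
    have : 0 ≤ kap q D (min (m + 1 - i) (j - m)) * Nat.clog 2 D := by positivity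
    linarith
  have hcl : kap q D (min (m + 1 - i) (j - m)) * Nat.clog 2 (h - l) ≤
      kap q D (min (m + 1 - i) (j - m)) * Nat.clog 2 D := by
    apply mul_le_mul_of_nonneg_left _ g3
    exact_mod_cast Nat.clog_mono_right 2 (by omega : h - l ≤ D)
  rcases hsep i m j m1 m2 hj m3 with hs | hs
  · exact Cert.search h l h l i m j i m (m + 1) j _ Φ (by omega) le_rfl (by omega) hh m1 m2 hj m3
      (Or.inl ⟨rfl, rfl, rfl, rfl, hs⟩) habs (Or.inl le_rfl) (Or.inl le_rfl) H (by linarith)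
  · exact Cert.search h l h l i m j (m + 1) j i m _ Φ (by omega) le_rfl (by omega) hh m1 m2 hj m3
      (Or.inr ⟨rfl, rfl, rfl, rfl, hs⟩) habs (Or.inl le_rfl) (Or.inl le_rfl) H (by linarith)

theorem Cert.entry (hsep : Sep ρ n) {U : Finset ℕ} (hU : U.Nonempty)
    {h l α β i m j fi fj si sj : ℕ} {Φ' : ℝ} (hh : h ≤ D) (a2 : l ≤ β) (a3 : β ≤ α) (a4 : α ≤ D)
    (a5 : i ≤ m) (a6 : m < j) (a7 : j ≤ n) (a8 : ∀ k, i ≤ k → k < j → ρ m ≤ ρ k)
    (a9 : Ori ρ i m j fi fj si sj) (a10 : Abs f c ρ U i j l h)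
    (a11 : h ≤ α ∨ Abs f c ρ U fi fj α h) (a12 : β ≤ l ∨ Abs f c ρ U si sj l β)
    (a13 : Cert q D n f c ρ U l Φ') :
    Cert q D n f c ρ U h (Φ' + GG q D (m + 1 - i) + GG q D (j - m) + 1 / 2 +
        kap q D (min (m + 1 - i) (j - m)) * Nat.clog 2 (α - β)) := by
  have g1 := GG_nonneg q D (m + 1 - i)
  have g2 := GG_nonneg q D (j - m)
  have g3 : 0 ≤ kap q D (min (m + 1 - i) (j - m)) * Nat.clog 2 (α - β) :=
    mul_nonneg (kap_nonneg _ _ _) (by positivity)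
  by_cases h0 : h ≤ l
  · exact (a13.down h0).le (by linarith)
  by_cases h1 : β + 2 ≤ α
  · exact Cert.search h l α β i m j fi fj si sj _ Φ' (by omega) a2 h1 a4 a5 a6 a7 a8 a9 a10 a11
      a12 a13 le_rfl
  have hfs : fj ≤ n ∧ sj ≤ n ∧ GG q D (sj + 1 - si) + GG q D (fj + 1 - fi) =
      GG q D (m + 1 - i) + GG q D (j - m) := by
    rcases a9 with ⟨rfl, rfl, rfl, rfl, -⟩ | ⟨rfl, rfl, rfl, rfl, -⟩
    · refine ⟨by omega, a7, ?_⟩
      rw [show sj + 1 - (fj + 1) = sj - fj by omega, add_comm]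
    · refine ⟨a7, by omega, ?_⟩
      rw [show fj + 1 - (sj + 1) = fj - sj by omega]
  obtain ⟨hf1, hs1, hfs⟩ := hfs
  have s1 : Cert q D n f c ρ U β (Φ' + GG q D (sj + 1 - si)) := by
    rcases a12 with h2 | h2
    · exact (a13.down h2).le (by linarith [GG_nonneg q D (sj + 1 - si)])
    · exact Cert.fresh hsep hU hs1 (by omega) h2 a13
  have s2 : Cert q D n f c ρ U α (Φ' + GG q D (sj + 1 - si) + 1 / 2) :=
    (Cert.skip β _ _ s1 le_rfl).down (by omega)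
  have s3 : Cert q D n f c ρ U h (Φ' + GG q D (sj + 1 - si) + 1 / 2 + GG q D (fj + 1 - fi)) := by
    rcases a11 with h2 | h2
    · exact (s2.down h2).le (by linarith [GG_nonneg q D (fj + 1 - fi)])
    · exact Cert.fresh hsep hU hf1 hh h2 s2
  exact s3.le (by linarith)

theorem Cert.act (hsep : Sep ρ n) {U : Finset ℕ} (hU : U.Nonempty) {h o : ℕ} {Φ : ℝ}
    (hUC : U ⊆ Cs (h + 1) o) (hhD : h + 1 ≤ D)
    (hX : (U ∩ Cs h o).Nonempty) (hX2 : lg U - 2 ≤ lg (U ∩ Cs h o))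
    (hY : (U ∩ Cs h (o + 2 * 3 ^ h)).Nonempty) (hY2 : lg U - 2 ≤ lg (U ∩ Cs h (o + 2 * 3 ^ h)))
    (hdens : (2 : ℝ) ^ (-(q : ℝ)) * (U ∩ Cs h o).card * (U ∩ Cs h (o + 2 * 3 ^ h)).card ≤
      ∑ x ∈ U ∩ Cs h o, (((U ∩ Cs h (o + 2 * 3 ^ h)).filter (fun y => f x y = c)).card : ℝ))
    (H : Cert q D n f c ρ U (h + 1) Φ) :
    ∃ V o' Ψ, V ⊆ U ∧ V ⊆ Cs h o' ∧ V.Nonempty ∧ Cert q D n f c ρ V h Ψ ∧
      lg U - lg V + Ψ ≤ Φ + 1 / 2 := by
  cases H with
  | skip _ _ Φ' h1 h2 =>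
    obtain ⟨V, o', v1, v2, v3, v4⟩ := descend_one hU hUC
    exact ⟨V, o', Φ', v1, v2, v3, h1.sub v1, by linarith⟩
  | search _ l α β i m j fi fj si sj _ Φ' a1 a2 a3 a4 a5 a6 a7 a8 a9 a10 a11 a12 a13 a14 =>
    set θ := β + (α - β) / 2 with hθ
    have p3 : ∀ {x y : ℕ}, x ≤ y → 3 ^ x ≤ 3 ^ y := fun h => Nat.pow_le_pow_right (by norm_num) h
    have key : ∃ V o', V ⊆ U ∧ V ⊆ Cs h o' ∧ V.Nonempty ∧
        lg U - lg V ≤ kap q D (min (m + 1 - i) (j - m)) ∧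
        (Abs f c ρ V fi fj θ h ∨ Abs f c ρ V si sj l θ) := by
      rcases a9 with ⟨rfl, rfl, rfl, rfl, hs⟩ | ⟨rfl, rfl, rfl, rfl, hs⟩
      · refine attempt q f c D _ _ _ hhD hX hX2 hY hY2 hdens a5 a6 ?_
        intro X' Y' A B h1 h2 hA hB hcross
        apply a10
        refine merge a5 a6 hA hB (h1.trans inter_subset_right) (h2.trans inter_subset_right)
          (h1.trans inter_subset_left) (h2.trans inter_subset_left) hcross ?_ ?_ ?_ ?_ ?_
        · exact fun k d _ _ h3 hw => ⟨le_trans (p3 (by omega)) hw.1,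
            lt_of_lt_of_le h3 (p3 (by omega))⟩
        · exact fun k d _ _ h3 hw => ⟨hw.1, lt_of_lt_of_le h3 (p3 (by omega))⟩
        · exact fun d d1 d2 => ⟨le_trans (p3 (by omega)) d1, d2⟩
        · intro k k1 k2
          exact not_lt.2 (a8 k k1 k2)
        · intro k k' d e k1 k2 k3 k4 w1 w2
          exact ⟨fun _ => lt_of_lt_of_le w2.2 w1.1,
            fun hR => absurd hR (not_lt.2 (hs k k' k1 k2 k3 k4).le)⟩
      · obtain ⟨V, o', v1, v2, v3, v4, v5⟩ := attempt q f c D (fun k k' => ρ k < ρ k')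
          (fun _ d => 3 ^ l ≤ d ∧ d < 3 ^ θ) (fun _ d => 3 ^ θ ≤ d ∧ d < 3 ^ h)
          hhD hX hX2 hY hY2 hdens a5 a6 (by
            intro X' Y' A B h1 h2 hA hB hcross
            apply a10
            refine merge a5 a6 hA hB (h1.trans inter_subset_right) (h2.trans inter_subset_right)
              (h1.trans inter_subset_left) (h2.trans inter_subset_left) hcross ?_ ?_ ?_ ?_ ?_
            · exact fun k d _ _ h3 hw => ⟨hw.1, lt_of_lt_of_le h3 (p3 (by omega))⟩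
            · exact fun k d _ _ h3 hw => ⟨le_trans (p3 (by omega)) hw.1,
                lt_of_lt_of_le h3 (p3 (by omega))⟩
            · exact fun d d1 d2 => ⟨le_trans (p3 (by omega)) d1, d2⟩
            · intro k k1 k2
              exact not_lt.2 (a8 k k1 k2)
            · intro k k' d e k1 k2 k3 k4 w1 w2
              exact ⟨fun hR => absurd hR (not_lt.2 (hs k k' k1 k2 k3 k4).le),
                fun _ => lt_of_lt_of_le w1.2 w2.1⟩)
        exact ⟨V, o', v1, v2, v3, v4, v5.symm⟩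
    obtain ⟨V, o', v1, v2, v3, v4, v5⟩ := key
    have hk := kap_nonneg q D (min (m + 1 - i) (j - m))
    have hcl : Nat.clog 2 (α - β) = Nat.clog 2 ((α - β + 2 - 1) / 2) + 1 :=
      Nat.clog_of_two_le (by norm_num) (by omega)
    have b10 : Abs f c ρ V i j l h := a10.mono v1 (by omega)
    rcases v5 with v5 | v5
    · refine ⟨V, o', _, v1, v2, v3, Cert.entry hsep v3 (α := θ) (β := β) (by omega) a2 (by omega)
        (by omega) a5 a6 a7 a8 a9 b10 (Or.inr v5) (a12.imp id (fun h => h.mono v1 le_rfl))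
        (a13.sub v1), ?_⟩
      have h1 : Nat.clog 2 (θ - β) + 1 ≤ Nat.clog 2 (α - β) := by
        rw [hcl]
        exact Nat.succ_le_succ (Nat.clog_mono_right 2 (by omega))
      have h2 : (Nat.clog 2 (θ - β) : ℝ) + 1 ≤ Nat.clog 2 (α - β) := by exact_mod_cast h1
      nlinarith
    · refine ⟨V, o', _, v1, v2, v3, Cert.entry hsep v3 (α := α) (β := θ) (by omega) (by omega)
        (by omega) a4 a5 a6 a7 a8 a9 b10
        (a11.imp (fun h => by omega) (fun h => h.mono v1 (by omega))) (Or.inr v5)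
        (a13.sub v1), ?_⟩
      have h1 : Nat.clog 2 (α - θ) + 1 ≤ Nat.clog 2 (α - β) := by
        rw [hcl]
        exact Nat.succ_le_succ (Nat.clog_mono_right 2 (by omega))
      have h2 : (Nat.clog 2 (α - θ) : ℝ) + 1 ≤ Nat.clog 2 (α - β) := by exact_mod_cast h1
      nlinarith

end

theorem dfs_main (q : ℕ) (hq : 0 < q) (f : ℕ → ℕ → ℕ) (hf : ∀ x y, f x y < q) (ρ : ℕ → ℕ)
    (n D : ℕ) (hsep : Sep ρ n) :
    ∀ (h o : ℕ) (U : Finset ℕ) (Φ : ℕ → ℝ), U ⊆ Cs h o → U.Nonempty → h ≤ D →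
      (∀ c < q, Cert q D n f c ρ U h (Φ c)) →
      2 * (h - lg U + ∑ c ∈ range q, Φ c) < h → False := by
  intro h
  induction h with
  | zero =>
    intro o U Φ hUC hU _ hc hinv
    have := lg_le_height hU hUC
    have : 0 ≤ ∑ c ∈ range q, Φ c :=
      Finset.sum_nonneg (fun c hc' => (hc c (by simpa using hc')).nonneg)
    push_cast at *
    linarith
  | succ h ih =>
    intro o U Φ hUC hU hD hc hinv
    rcases split_level hU hUC with ⟨V, o', h1, h2, h3, h4⟩ | ⟨hX, hX2, hY, hY2⟩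
    · refine ih o' V Φ h2 h3 (by omega) (fun c hc' => ((hc c hc').down1).sub h1) ?_
      push_cast at hinv
      linarith
    obtain ⟨c, hcq, hdens⟩ := majority q hq f hf (U ∩ Cs h o) (U ∩ Cs h (o + 2 * 3 ^ h))
    obtain ⟨V, o', Ψ, v1, v2, v3, v4, v5⟩ :=
      Cert.act hsep hU hUC hD hX hX2 hY hY2 hdens (hc c hcq)
    refine ih o' V (Function.update Φ c Ψ) v2 v3 (by omega) ?_ ?_
    · intro d hd
      by_cases hdc : d = c
      · subst hdc
        simpa using v4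
      · rw [Function.update_of_ne hdc]
        exact ((hc d hd).down1).sub v1
    · have hcq' : c ∈ range q := by simpa using hcq
      rw [Finset.sum_update_of_mem hcq']
      rw [← Finset.add_sum_erase _ _ hcq', ← Finset.sdiff_singleton_eq_erase] at hinv
      push_cast at hinv
      linarith

end Pool.Agent.P.MP_4cb405_co
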