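import Mathlib
import Pool.Agent.P.MP_4cb405_co.Dfs

set_option autoImplicit false

namespace Pool.Agent.P.MP_4cb405_co

open Finset

theorem Cs_sub_range {h D N : ℕ} (hh : h ≤ D) (hN : 2 ^ (2 * D) ≤ N) : Cs h 0 ⊆ range N := by
  intro x hx
  have h1 := (Cs_range _ _ _ hx).2
  have h2 : 3 ^ h ≤ 3 ^ D := Nat.pow_le_pow_right (by norm_num) hh
  have h3 : 3 ^ D ≤ 2 ^ (2 * D) := by
    rw [pow_mul]; exact Nat.pow_le_pow_left (by norm_num) _
  rw [mem_range]; omega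

theorem block_thm (q : ℕ) (hq : 0 < q) (f : ℕ → ℕ → ℕ) (hf : ∀ x y, f x y < q)
    (ρ B : ℕ → ℕ) (kk n : ℕ) (hn : 0 < n) (hB : ∀ p, B p < kk)
    (hBm : ∀ p p', p < n → p' < n → ρ p ≤ ρ p' → B p ≤ B p') (N : ℕ)
    (hN : 2 ^ (8 * q ^ 2 * (10 * q + 10) ^ 2 * kk ^ (4 * q - 2) * (n + 1)) ≤ N) :
    ∃ c < q, ∃ a : ℕ → ℕ, (∀ k ≤ n, a k < N) ∧
      (∀ k l, k < l → l ≤ n → a k < a l ∧ f (a k) (a l) = c) ∧
      ∀ k l, k < n → l < n → (B k < B l ∨ Nest ρ k l) → a (l + 1) - a l < a (k + 1) - a k := by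
  obtain ⟨p, rfl⟩ : ∃ p, q = p + 1 := ⟨q - 1, by omega⟩
  have hk : 0 < kk := lt_of_le_of_lt (Nat.zero_le _) (hB 0)
  set W := 4 * (p + 1) ^ 2 * (10 * (p + 1) + 10) ^ 2 * kk ^ (3 * p + 1) * (n + 1) with hW
  set D := kk ^ (p + 1) * W with hD
  have hW0 : 0 < W := by positivity
  have hND : 2 ^ (2 * D) ≤ N := by
    refine le_trans (le_of_eq ?_) hN
    congr 1
    rw [hD, hW, show 4 * (p + 1) - 2 = (p + 1) + (3 * p + 1) by omega, pow_add kk (p + 1)]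
    ring
  have hnD : n + 1 ≤ D := by
    rw [hD, hW, ← mul_assoc]
    exact Nat.le_mul_of_pos_left _ (by positivity)
  by_contra hcon
  have hno : ∀ c < p + 1, ∀ l w, ¬ ∃ a, Copy f c (Nest ρ) (Win kk B l w) (range N) 0 n a := by
    rintro c hc l w ⟨a, ha⟩
    refine hcon ⟨c, hc, a, fun k hk => mem_range.1 (ha.mem k (Nat.zero_le _) hk),
      fun k l h1 h2 => ha.col k l (Nat.zero_le _) h1 h2, fun k k' h1 h2 h3 => ?_⟩
    rcases h3 with h3 | h3
    · have w1 := (ha.win k (Nat.zero_le _) h1).1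
      have w2 := (ha.win k' (Nat.zero_le _) h2).2
      refine lt_of_lt_of_le w2 (le_trans (Nat.pow_le_pow_right (by norm_num) ?_) w1)
      have := hB k'
      have h5 : (kk - 1 - B k' + 1) * w ≤ (kk - 1 - B k) * w := Nat.mul_le_mul_right _ (by omega)
      rw [add_mul, one_mul] at h5
      omega
    · exact ha.ord k k' (Nat.zero_le _) h1 (Nat.zero_le _) h2 h3
  obtain ⟨m0, hm0a, hm0b, hm0c⟩ := exists_root ρ hn
  set β : ℕ → ℕ := fun _ => B m0 with hβ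
  have hup : ∀ c ≤ p + 1, lo kk (p + 1) W β c + wd kk (p + 1) W c ≤ D := by
    intro c hc
    have := lo_up kk (p + 1) W hk β 0 c (by omega)
    simpa [lo, wd] using this
  have h1 := hup (p + 1) le_rfl
  have h2 := hup p (by omega)
  have e1 : wd kk (p + 1) W (p + 1) = W := by simp [wd]
  have e2 : wd kk (p + 1) W p = kk * W := by simp [wd]
  rw [e1] at h1
  rw [e2] at h2
  refine block_main (p + 1) hq f hf ρ B kk n W D hn hW0 hB hBm hD hnD (range N) hno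
    (lo kk (p + 1) W β (p + 1) + W) 0 (Cs _ 0) (fun _ => 0) (fun _ => n) (fun _ => m0)
    Subset.rfl (Cs_sub_range h1 hND) (Cs_nonempty _ _) (fun c _ => ⟨hm0a, hm0b, le_rfl, hm0c⟩)
    ?_ le_rfl ?_
  · rintro c hc ⟨a, ha⟩
    exact hno c hc _ _ ⟨a, ha.mono (Cs_sub_range h1 hND)⟩
  · rw [lg_Cs]
    have hkR : (0 : ℝ) < kk := by exact_mod_cast hk
    have hWR : (0 : ℝ) < W := by exact_mod_cast hW0
    have hg : gg (p + 1) D (n + 1) = (10 * (p + 1) + 10) *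
        (2 * (p + 1) * (10 * (p + 1) + 10) * kk ^ (2 * p + 1) * (n + 1)) := by
      unfold gg
      push_cast
      congr 1
      rw [Real.sqrt_eq_iff_mul_self_eq (by positivity) (by positivity), hD, hW]
      push_cast
      ring
    have hgW : 2 * (kk : ℝ) ^ p * (((p + 1 : ℕ) : ℝ) * gg (p + 1) D (n + 1)) = W := by
      rw [hg, hW]
      push_cast
      ring
    have h3 : (lo kk (p + 1) W β p : ℝ) + kk * W ≤ kk ^ p * (kk * W) := by
      have : lo kk (p + 1) W β p + kk * W ≤ kk ^ p * (kk * W) := by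
        rw [← mul_assoc (kk ^ p), ← pow_succ]; exact h2
      exact_mod_cast this
    simp only [Nat.add_sub_cancel, Nat.sub_zero, sum_const, card_range, nsmul_eq_mul]
    set G := ((p + 1 : ℕ) : ℝ) * gg (p + 1) D (n + 1) with hG
    have hG0 : 0 ≤ G := mul_nonneg (by positivity) (gg_nonneg _ _ _)
    have h4 : (lo kk (p + 1) W β p : ℝ) * (G / (kk * W)) ≤ (kk ^ p - 1) * G := by
      rw [← mul_div_assoc, div_le_iff₀ (by positivity)]
      nlinarith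
    push_cast
    change 2 * (_ + (lo kk (p + 1) W β p : ℝ) * (G / (kk * W)) + G) ≤ _
    change _ ≤ (lo kk (p + 1) W β (p + 1) : ℝ) + W - lo kk (p + 1) W β (p + 1)
    linarith

theorem lin_lt_pow (A B : ℕ) : ∃ C, A * C + B < 2 ^ C := by
  refine ⟨2 * (2 * A + B + 1), ?_⟩
  have h : 2 * A + B + 1 < 2 ^ (2 * A + B + 1) := Nat.lt_two_pow_self
  rw [mul_comm 2 (2 * A + B + 1), pow_mul]
  nlinarith

theorem dfs_thm (q : ℕ) (hq : 0 < q) : ∃ cst : ℕ, ∀ (f : ℕ → ℕ → ℕ), (∀ x y, f x y < q) →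
    ∀ (ρ : ℕ → ℕ) (n : ℕ), Sep ρ n → ∀ N : ℕ,
    2 ^ (cst * (n + 1) ^ 2 * (Nat.log 2 (n + 1) + 1) ^ 2) ≤ N →
    ∃ c < q, ∃ a : ℕ → ℕ, (∀ k ≤ n, a k < N) ∧
      (∀ k l, k < l → l ≤ n → a k < a l ∧ f (a k) (a l) = c) ∧
      ∀ k l, k < n → l < n → ρ k < ρ l → a (l + 1) - a l < a (k + 1) - a k := by
  obtain ⟨C, hC⟩ := lin_lt_pow (4 * q * (2 * (2 * q + 4))) (4 * q * (4 * (2 * q + 4) + 1))
  refine ⟨2 * (2 ^ C) ^ 2, fun f hf ρ n hsep N hN => ?_⟩
  set ℓ := Nat.log 2 (n + 1) + 1 with hℓ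
  set E := 2 ^ C * (n + 1) * ℓ with hE
  set D := E ^ 2 with hD
  have hND : 2 ^ (2 * D) ≤ N := by
    refine le_trans (le_of_eq ?_) hN
    congr 1
    rw [hD, hE]; ring
  have hJ : Nat.clog 2 D ≤ 2 * (C + 2 * ℓ) := by
    apply Nat.clog_le_of_le_pow
    have a1 : n + 1 < 2 ^ ℓ := Nat.lt_pow_succ_log_self (by norm_num) _
    have a2 : ℓ < 2 ^ ℓ := Nat.lt_two_pow_self
    have a3 : E ≤ 2 ^ (C + 2 * ℓ) := by
      rw [hE, pow_add, two_mul, pow_add, mul_assoc]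
      exact Nat.mul_le_mul_left _ (Nat.mul_le_mul a1.le a2.le)
    rw [hD, mul_comm 2 (C + 2 * ℓ), pow_mul]
    exact Nat.pow_le_pow_left a3 2
  have hℓ1 : 1 ≤ ℓ := by omega
  have hkey : 4 * q * (Nat.clog 2 D * (2 * q + 4) + 1) * (n + 1) < E := by
    rw [hE, mul_right_comm (2 ^ C)]
    apply Nat.mul_lt_mul_of_pos_right _ (by omega)
    have a1 : Nat.clog 2 D * (2 * q + 4) + 1 ≤
        (2 * (2 * q + 4) * C + (4 * (2 * q + 4) + 1)) * ℓ := by
      have : Nat.clog 2 D * (2 * q + 4) ≤ 2 * (C + 2 * ℓ) * (2 * q + 4) :=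
        Nat.mul_le_mul_right _ hJ
      have h2 : C * (2 * q + 4) ≤ C * (2 * q + 4) * ℓ := Nat.le_mul_of_pos_right _ hℓ1
      nlinarith
    calc _ ≤ 4 * q * ((2 * (2 * q + 4) * C + (4 * (2 * q + 4) + 1)) * ℓ) :=
          Nat.mul_le_mul_left _ a1
      _ = (4 * q * (2 * (2 * q + 4)) * C + 4 * q * (4 * (2 * q + 4) + 1)) * ℓ := by ring
      _ < 2 ^ C * ℓ := Nat.mul_lt_mul_of_pos_right hC hℓ1
  by_contra hcon
  have hsub := Cs_sub_range (le_refl D) hND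
  refine dfs_main q hq f hf ρ n D hsep D 0 (Cs D 0) (fun _ => 0 + GG q D (n + 1 - 0)) Subset.rfl
    (Cs_nonempty _ _) le_rfl ?_ ?_
  · intro c hc
    refine Cert.fresh (l := 0) hsep (Cs_nonempty _ _) le_rfl le_rfl ?_ (Cert.done _ le_rfl)
    rintro ⟨a, ha⟩
    exact hcon ⟨c, hc, a, fun k hk => mem_range.1 (hsub (ha.mem k (Nat.zero_le _) hk)),
      fun k l h1 h2 => ha.col k l (Nat.zero_le _) h1 h2,
      fun k k' h1 h2 h3 => ha.ord k k' (Nat.zero_le _) h1 (Nat.zero_le _) h2 h3⟩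
  · rw [lg_Cs]
    simp only [sum_const, card_range, nsmul_eq_mul, Nat.sub_zero, zero_add, sub_self]
    have hE0 : (0 : ℝ) < E := by
      have : 0 < E := by omega
      exact_mod_cast this
    have hs : Real.sqrt (D : ℝ) = E := by
      rw [hD]; push_cast; exact Real.sqrt_sq hE0.le
    have hkR : (4 * q * ((Nat.clog 2 D : ℝ) * (2 * q + 4) + 1) * (n + 1) : ℝ) < E := by
      exact_mod_cast hkey
    have hDR : (D : ℝ) = E * E := by rw [hD]; push_cast; ring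
    unfold GG
    rw [hs]
    have hsq : 0 ≤ Real.sqrt ((n + 1 : ℕ) : ℝ) := Real.sqrt_nonneg _
    set Λ := (Nat.clog 2 D : ℝ) * (2 * q + 4) + 1 with hΛ
    have hΛ0 : 0 ≤ Λ := by positivity
    have hqR : (0 : ℝ) ≤ q := by positivity
    have h1 : 0 ≤ q * (Λ * E * Real.sqrt ((n + 1 : ℕ) : ℝ)) := by positivity
    have h2 : 4 * q * Λ * (n + 1) * E < E * E := mul_lt_mul_of_pos_right hkR hE0
    rw [hDR]
    push_cast at h1 ⊢
    nlinarith

end Pool.Agent.P.MP_4cb405_co
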